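import Mathlib

/-!
# Splitting the modulus (job L)

As `modulus_split` in `BU/MC.lean` (copy and adapt). `q0` is the product of the `p ^ (q.factorization p)` over the primes with `3 ≤ q.factorization p`, `q1` the product over the other primes of `q`; `q = q0 q1`, coprime, and `p ^ 3 ∤ q1` for every prime `p`
(`q1.factorization p ≤ 2`: `Nat.factorization_prod`, or: `p ^ 3 ∣ q1` gives `p ∣ q1`, `p ∤ q0`, so `p ^ 3 ∣ q` with `q.factorization p = q1.factorization p ≤ 2`; e.g. by `Nat.factorization_mul_of_coprime`).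
`q0 ∣ e ^ 3`: for `p` with `v = q.factorization p ≥ 3`: `v ≤ (e r').factorization p = e.factorization p + r'.factorization p ≤ e.factorization p + 2` (`q ∣ e r'`, `Nat.factorization_le_iff_dvd`; `p ^ 3 ∤ r'`), so `e.factorization p ≥ 1` and
`v ≤ 3 e.factorization p = (e ^ 3).factorization p`; the factors `p ^ v` are pairwise coprime (`Finset.prod_dvd_of_coprime`). Hence `q0 ≤ e ^ 3` (`e > 0`).
-/

namespace Pool.Agent.Lib.MP_42948a_nt.BU2

open Finset

theorem modulus_split' (q e r' : ℕ) (hq : 0 < q) (he : 0 < e) (hr' : ∀ p : ℕ, p.Prime → ¬ p ^ 3 ∣ r') (hd : q ∣ e * r') :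
    ∃ q0 q1 : ℕ, q = q0 * q1 ∧ 0 < q0 ∧ 0 < q1 ∧ q0.Coprime q1 ∧ (∀ p : ℕ, p.Prime → ¬ p ^ 3 ∣ q1) ∧ q0 ≤ e ^ 3 := by
  classical
  set P0 : Finset ℕ := q.primeFactors.filter (fun p => 3 ≤ q.factorization p) with hP0
  set P1 : Finset ℕ := q.primeFactors.filter (fun p => ¬ 3 ≤ q.factorization p) with hP1
  have hpr0 : ∀ p ∈ P0, p.Prime := fun p hp => Nat.prime_of_mem_primeFactors (Finset.mem_filter.1 hp).1
  have hpr1 : ∀ p ∈ P1, p.Prime := fun p hp => Nat.prime_of_mem_primeFactors (Finset.mem_filter.1 hp).1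
  have hprod : q = (∏ p ∈ P0, p ^ q.factorization p) * ∏ p ∈ P1, p ^ q.factorization p := by
    have h1 := Nat.prod_factorization_pow_eq_self hq.ne'
    rw [Finsupp.prod, Nat.support_factorization] at h1
    rw [hP0, hP1, Finset.prod_filter_mul_prod_filter_not]
    exact h1.symm
  refine ⟨∏ p ∈ P0, p ^ q.factorization p, ∏ p ∈ P1, p ^ q.factorization p, hprod, ?_, ?_, ?_, ?_, ?_⟩
  · exact Finset.prod_pos fun p hp => pow_pos (hpr0 p hp).pos _
  · exact Finset.prod_pos fun p hp => pow_pos (hpr1 p hp).pos _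
  · refine Nat.Coprime.prod_left fun p hp => Nat.Coprime.prod_right fun r hr => ?_
    refine Nat.coprime_pow_primes _ _ (hpr0 p hp) (hpr1 r hr) ?_
    rintro rfl
    exact (Finset.mem_filter.1 hr).2 (Finset.mem_filter.1 hp).2
  · intro p hp h3
    have h4 : p ∣ ∏ r ∈ P1, r ^ q.factorization r := (dvd_pow_self p (by norm_num)).trans h3
    obtain ⟨r, hr, hpr⟩ := (hp.prime.dvd_finsetProd_iff _).1 h4
    have h5 : p = r := (Nat.prime_dvd_prime_iff_eq hp (hpr1 r hr)).1 (hp.dvd_of_dvd_pow hpr)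
    subst h5
    have h6 : p ^ 3 ∣ q := h3.trans (Dvd.intro_left _ hprod.symm)
    exact (Finset.mem_filter.1 hr).2 ((hp.pow_dvd_iff_le_factorization hq.ne').1 h6)
  · have hr0 : r' ≠ 0 := by
      rintro rfl
      exact hr' 2 Nat.prime_two (dvd_zero _)
    have hdiv : ∀ p ∈ P0, p ^ q.factorization p ∣ e ^ 3 := by
      intro p hp
      have hpp := hpr0 p hp
      have h3 := (Finset.mem_filter.1 hp).2
      have h4 : q.factorization p ≤ (e * r').factorization p :=
        (Nat.factorization_le_iff_dvd hq.ne' (Nat.mul_ne_zero he.ne' hr0)).2 hd p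
      rw [Nat.factorization_mul he.ne' hr0, Finsupp.add_apply] at h4
      have h5 : ¬ 3 ≤ r'.factorization p := fun h => hr' p hpp ((hpp.pow_dvd_iff_le_factorization hr0).2 h)
      refine (hpp.pow_dvd_iff_le_factorization (pow_ne_zero 3 he.ne')).2 ?_
      rw [Nat.factorization_pow, Finsupp.smul_apply, smul_eq_mul]
      omega
    have key : ∀ S : Finset ℕ, (∀ p ∈ S, p.Prime) → (∀ p ∈ S, p ^ q.factorization p ∣ e ^ 3) →
        ∏ p ∈ S, p ^ q.factorization p ∣ e ^ 3 := by
      intro S
      induction S using Finset.induction_on with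
      | empty => intro _ _; simp
      | insert a S ha ih =>
        intro hS hS2
        rw [Finset.prod_insert ha]
        have ha' : a.Prime := hS a (Finset.mem_insert_self a S)
        refine Nat.Coprime.mul_dvd_of_dvd_of_dvd ?_ (hS2 a (Finset.mem_insert_self a S))
          (ih (fun p hp => hS p (Finset.mem_insert_of_mem hp)) (fun p hp => hS2 p (Finset.mem_insert_of_mem hp)))
        refine Nat.Coprime.prod_right fun r hr => ?_
        refine Nat.coprime_pow_primes _ _ ha' (hS r (Finset.mem_insert_of_mem hr)) ?_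
        rintro rfl
        exact ha hr
    exact Nat.le_of_dvd (pow_pos he 3) (key P0 hpr0 hdiv)

end Pool.Agent.Lib.MP_42948a_nt.BU2
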