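import Pool.Agent.Lib.MP_42948a_nt.BU2.C

/-!
# Complete sums to the modulus `q0 q1` with shifts divisible by `q0` (job D)

Copy `CS_bound` of `BU/CD.lean` (with its private lemma `CD_Dl`), with `CS_cubefree` in place of `CS_sqfree` and `lb` in place of the product.
-/

namespace Pool.Agent.Lib.MP_42948a_nt.BU2

open Finset Pool.Agent.Lib.MP_42948a_nt.BU

private theorem D_Dl {r : ℕ} (q : ℤ) (β : Fin r ⊕ Fin r → ℤ) (j : Fin r ⊕ Fin r) :
    Dl (fun i => q * β i) j = q ^ (univ.erase j).card * Dl β j := by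
  rw [Dl, Dl, ← Finset.prod_const, ← Finset.prod_mul_distrib]
  refine Finset.prod_congr rfl fun i _ => ?_
  ring

theorem CS_bound' {r : ℕ} (hr : 1 ≤ r) (β : Fin r ⊕ Fin r → ℤ) (j : Fin r ⊕ Fin r) (q0 q1 : ℕ) [NeZero q0] [NeZero q1]
    [NeZero (q0 * q1)] (hco : q0.Coprime q1) (hq : ∀ p : ℕ, p.Prime → ¬ p ^ 3 ∣ q1)
    (χ : DirichletCharacter ℂ (q0 * q1)) (hNT : ∀ p : ℕ, p.Prime → p ∣ q1 → NT χ p) :
    ‖CS χ (fun i => (q0 : ℤ) * β i)‖ ≤ (q0 : ℝ) * lb (2 * r) q1 (Dl β j) := by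
  obtain ⟨χ0, χ1, hmul, hpow, _, hNT1⟩ := crt_char q0 q1 hco χ
  rw [CS_mul q0 q1 hco χ χ0 χ1 hmul, norm_mul]
  have h1 : ‖CS χ0 (fun i => (q0 : ℤ) * β i)‖ ≤ (q0 : ℝ) := CS_trivial χ0 _
  have h2 := CS_cubefree hr (fun i => (q0 : ℤ) * β i) j q1 hq χ1
    (fun p hp hpq => hNT1 p hp hpq (hNT p hp hpq))
  have h3 : lb (2 * r) q1 (Dl (fun i => (q0 : ℤ) * β i) j) = lb (2 * r) q1 (Dl β j) := by
    unfold lb
    refine Finset.prod_congr rfl fun p hp => ?_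
    have hpp : p.Prime := Nat.prime_of_mem_primeFactors hp
    have hpq : p ∣ q1 := Nat.dvd_of_mem_primeFactors hp
    have hpi : Prime (p : ℤ) := Nat.prime_iff_prime_int.mp hpp
    have h4 : (p : ℤ) ∣ Dl (fun i => (q0 : ℤ) * β i) j ↔ (p : ℤ) ∣ Dl β j := by
      rw [D_Dl]
      constructor
      · intro h
        rcases hpi.dvd_or_dvd h with h5 | h5
        · exfalso
          have h6 : (p : ℤ) ∣ (q0 : ℤ) := hpi.dvd_of_dvd_pow h5
          have h7 : p ∣ q0 := by exact_mod_cast h6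
          exact hpp.one_lt.ne' (Nat.eq_one_of_dvd_coprimes hco h7 hpq)
        · exact h5
      · intro h
        exact Dvd.dvd.mul_left h _
    simp only [h4]
  rw [h3] at h2
  exact mul_le_mul h1 h2 (norm_nonneg _) (Nat.cast_nonneg _)

end Pool.Agent.Lib.MP_42948a_nt.BU2
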