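import Pool.Agent.Lib.MP_42948a_nt.BU2.Defs

/-!
# The weights (job E)

`wt_nonneg`, `lb_le`: termwise `if p ∣ D then P else C √P ≤ C √P * (if p ∣ D then √P else 1)` with `P = p ^ v` (`P = √P √P`, `C ≥ 1`), and `∏ C √P = C ^ ω * √(∏ P) = C ^ ω √q` (`Nat.prod_factorization_pow_eq_self`; `CE_sqrt_prod` of `BU/CE.lean`).
`wt_prod`: `p ∣ ∏ D i` implies `p ∣ D i` for some `i` (`Prime.dvd_finset_prod_iff`), the factor of `p` on the right side is then `≥ √P ≥ 1` and all factors are `≥ 1` (exchange the products: `Finset.prod_comm`).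
`wt_Dl`: `Dl β j = ∏ i ∈ univ.erase j, (β i - β j)`. `wt_neg`: `p ∣ -D ↔ p ∣ D`.
-/

namespace Pool.Agent.Lib.MP_42948a_nt.BU2

open Finset Pool.Agent.Lib.MP_42948a_nt.BU

theorem wt_nonneg (q : ℕ) (D : ℤ) : 0 ≤ wt q D := by
  unfold wt
  refine Finset.prod_nonneg fun p _ => ?_
  split_ifs
  · exact Real.sqrt_nonneg _
  · exact zero_le_one

theorem wt_neg (q : ℕ) (D : ℤ) : wt q (-D) = wt q D := by
  unfold wt
  simp only [dvd_neg]

private theorem E_sqrt_prod {ι : Type*} (s : Finset ι) (f : ι → ℕ) :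
    √((∏ i ∈ s, f i : ℕ) : ℝ) = ∏ i ∈ s, √((f i : ℕ) : ℝ) := by
  classical
  induction s using Finset.induction_on with
  | empty => simp
  | insert a s ha ih =>
    rw [Finset.prod_insert ha, Finset.prod_insert ha, Nat.cast_mul, Real.sqrt_mul (Nat.cast_nonneg _),
      ih]

theorem lb_le (q : ℕ) (hq : 0 < q) (D : ℤ) (C : ℝ) (hC : 1 ≤ C) :
    lb C q D ≤ C ^ q.primeFactors.card * √(q : ℝ) * wt q D := by
  have h1 : lb C q D ≤ ∏ p ∈ q.primeFactors, (C * √((p ^ q.factorization p : ℕ) : ℝ) *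
      (if (p : ℤ) ∣ D then √((p ^ q.factorization p : ℕ) : ℝ) else 1)) := by
    unfold lb
    refine prod_le_prod (fun p _ => ?_) (fun p _ => ?_)
    · split_ifs
      · exact Nat.cast_nonneg _
      · positivity
    · split_ifs with h
      · rw [mul_assoc, Real.mul_self_sqrt (Nat.cast_nonneg _)]
        have h0 : (0 : ℝ) ≤ ((p ^ q.factorization p : ℕ) : ℝ) := Nat.cast_nonneg _
        exact le_mul_of_one_le_left h0 hC
      · rw [mul_one]
  refine h1.trans (le_of_eq ?_)
  have h2 : ∏ p ∈ q.primeFactors, p ^ q.factorization p = q :=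
    Nat.prod_factorization_pow_eq_self hq.ne'
  rw [prod_mul_distrib, prod_mul_distrib, prod_const, ← E_sqrt_prod, h2]
  rfl

private theorem E_wt_mul (q : ℕ) (x y : ℤ) : wt q (x * y) ≤ wt q x * wt q y := by
  unfold wt
  rw [← Finset.prod_mul_distrib]
  refine Finset.prod_le_prod (fun p _ => ?_) fun p hp => ?_
  · split_ifs
    · exact Real.sqrt_nonneg _
    · exact zero_le_one
  · have hpp : p.Prime := Nat.prime_of_mem_primeFactors hp
    have hpi : Prime (p : ℤ) := Nat.prime_iff_prime_int.mp hpp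
    have h1 : (1 : ℝ) ≤ √((p ^ q.factorization p : ℕ) : ℝ) := by
      rw [Real.one_le_sqrt]
      have h2 : 1 ≤ p ^ q.factorization p := Nat.one_le_pow _ _ hpp.pos
      exact_mod_cast h2
    by_cases hx : (p : ℤ) ∣ x
    · have hxy : (p : ℤ) ∣ x * y := Dvd.dvd.mul_right hx y
      rw [if_pos hx, if_pos hxy]
      split_ifs
      · exact le_mul_of_one_le_left (by linarith) h1
      · rw [mul_one]
    · by_cases hy : (p : ℤ) ∣ y
      · have hxy : (p : ℤ) ∣ x * y := Dvd.dvd.mul_left hy x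
        rw [if_neg hx, if_pos hy, if_pos hxy, one_mul]
      · have hxy : ¬ (p : ℤ) ∣ x * y := fun h => (hpi.dvd_or_dvd h).elim hx hy
        rw [if_neg hx, if_neg hy, if_neg hxy, one_mul]

private theorem E_wt_one (q : ℕ) : wt q 1 = 1 := by
  unfold wt
  refine Finset.prod_eq_one fun p hp => ?_
  have hpp : p.Prime := Nat.prime_of_mem_primeFactors hp
  have hpi : Prime (p : ℤ) := Nat.prime_iff_prime_int.mp hpp
  rw [if_neg fun h => hpi.not_isUnit (isUnit_of_dvd_one h)]

theorem wt_prod {ι : Type*} (q : ℕ) (s : Finset ι) (D : ι → ℤ) : wt q (∏ i ∈ s, D i) ≤ ∏ i ∈ s, wt q (D i) := by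
  classical
  induction s using Finset.induction_on with
  | empty =>
    rw [Finset.prod_empty, Finset.prod_empty, E_wt_one]
  | insert a s ha ih =>
    rw [Finset.prod_insert ha, Finset.prod_insert ha]
    exact (E_wt_mul q _ _).trans (mul_le_mul_of_nonneg_left ih (wt_nonneg q _))

theorem wt_Dl {r : ℕ} (q : ℕ) (β : Fin r ⊕ Fin r → ℤ) (j : Fin r ⊕ Fin r) :
    wt q (Dl β j) ≤ ∏ i ∈ univ.erase j, wt q (β i - β j) := by
  unfold Dl
  exact wt_prod q _ _

end Pool.Agent.Lib.MP_42948a_nt.BU2
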