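import Pool.Agent.Lib.MP_42948a_nt.BU.HE

/-!
# Numerics for the moment (job J)

Copy `W_num` of `BU/HE.lean`; instead of `q0 ≤ Q0` we have `q0 ≤ q ^ (s / 4)`. In the second term `Q0` is replaced by `q ^ (s/4)`: `q ^ (s/4) * (2 r) 2 ^ (2 r - 1) * (q ^ (s/2)) ≤ (1/2) q ^ s` as soon as `2 (2 r) 2 ^ (2 r - 1) ≤ q ^ (s / 4)`
(`s/4 + s/4 + s/2 = s`).
-/

namespace Pool.Agent.Lib.MP_42948a_nt.BU2

open Finset Pool.Agent.Lib.MP_42948a_nt.OA Pool.Agent.Lib.MP_42948a_nt.BU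

theorem W_num' (r : ℕ) (hr : 1 ≤ r) (C : ℝ) (hC1 : 1 ≤ C) (s : ℝ) (hs : 0 < s) :
    ∃ q00 : ℕ, ∀ q q0 q1 : ℕ, q00 ≤ q → q = q0 * q1 → 1 ≤ q0 → (q0 : ℝ) ≤ (q : ℝ) ^ (s / 4) → 1 ≤ q1 →
      ∀ B : ℕ, 1 ≤ B → (q : ℝ) ^ (1 / 2 : ℝ) ≤ (B : ℝ) ^ r →
      (q0 : ℝ) * ((r : ℝ) ^ (2 * r) * (B : ℝ) ^ r * q1 +
        2 * r * (B * (2 * B * (q1.divisors.card : ℝ)) ^ (2 * r - 1)) * (C ^ q1.primeFactors.card * √(q1 : ℝ))) ≤
      (q : ℝ) ^ s * ((B : ℝ) ^ (2 * r) * (q : ℝ) ^ (1 / 2 : ℝ)) := by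
  obtain ⟨k, hk⟩ : ∃ k : ℕ, C ≤ 2 ^ k := by
    obtain ⟨k, hk⟩ := pow_unbounded_of_one_lt C (by norm_num : (1 : ℝ) < 2)
    exact ⟨k, hk.le⟩
  set s' : ℝ := s / (4 * r + 2 * k + 4) with hs'
  have hden : (0 : ℝ) < 4 * r + 2 * k + 4 := by positivity
  have hs'0 : 0 < s' := div_pos hs hden
  obtain ⟨d0, hd0⟩ := BB_le s' hs'0
  have h1 : ∀ᶠ x : ℝ in Filter.atTop, 2 * (r : ℝ) ^ (2 * r) ≤ x ^ s :=
    (tendsto_rpow_atTop hs).eventually_ge_atTop _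
  have h2 : ∀ᶠ x : ℝ in Filter.atTop, 2 * ((2 * (r : ℝ)) * 2 ^ (2 * r - 1)) ≤ x ^ (s / 4) :=
    (tendsto_rpow_atTop (by positivity : 0 < s / 4)).eventually_ge_atTop _
  have h3 : ∀ᶠ d : ℕ in Filter.atTop, d0 ≤ d ∧ 2 * (r : ℝ) ^ (2 * r) ≤ (d : ℝ) ^ s ∧
      2 * ((2 * (r : ℝ)) * 2 ^ (2 * r - 1)) ≤ (d : ℝ) ^ (s / 4) := by
    have := tendsto_natCast_atTop_atTop (R := ℝ)
    filter_upwards [Filter.eventually_ge_atTop d0, this.eventually h1, this.eventually h2] with d a b c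
    exact ⟨a, b, c⟩
  obtain ⟨q00, hq00⟩ := Filter.eventually_atTop.1 h3
  refine ⟨q00, fun q q0 q1 hq hqq hq01 hq0Q hq11 B hB hBr => ?_⟩
  obtain ⟨hqd, hqs, hqs2⟩ := hq00 q hq
  have hqpos : 0 < q := by rw [hqq]; exact Nat.mul_pos hq01 hq11
  have hq1R : (1 : ℝ) ≤ (q : ℝ) := by exact_mod_cast hqpos
  have hq0R : (0 : ℝ) < (q : ℝ) := by linarith
  have hτ := (hd0 q hqd).2
  set t : ℝ := (q1.divisors.card : ℝ) with ht
  have ht0 : 0 ≤ t := by positivity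
  have ht1 : t ≤ (q : ℝ) ^ s' := by
    refine le_trans ?_ hτ
    have hsub : q1.divisors ⊆ q.divisors := Nat.divisors_subset_of_dvd hqpos.ne' (by rw [hqq]; exact Dvd.intro_left _ rfl)
    have hcc : ((q1.divisors.card : ℕ) : ℝ) ≤ ((q.divisors.card : ℕ) : ℝ) := Nat.cast_le.2 (Finset.card_le_card hsub)
    exact hcc
  have hω : (2 : ℝ) ^ q1.primeFactors.card ≤ t := by
    have := HE_two_pow q1 (by omega)
    rw [ht]
    exact_mod_cast this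
  set Y : ℝ := (q : ℝ) ^ s' with hY
  have hY0 : 0 < Y := Real.rpow_pos_of_pos hq0R _
  have hCω : C ^ q1.primeFactors.card ≤ Y ^ k := by
    calc C ^ q1.primeFactors.card ≤ ((2 : ℝ) ^ k) ^ q1.primeFactors.card :=
          pow_le_pow_left₀ (by linarith) hk _
      _ = ((2 : ℝ) ^ q1.primeFactors.card) ^ k := by rw [← pow_mul, ← pow_mul, mul_comm]
      _ ≤ Y ^ k := pow_le_pow_left₀ (by positivity) (hω.trans ht1) _
  have hsq : √(q1 : ℝ) ≤ (q : ℝ) ^ (1 / 2 : ℝ) := by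
    rw [← Real.sqrt_eq_rpow]
    refine Real.sqrt_le_sqrt ?_
    have : q1 ≤ q := by rw [hqq]; exact Nat.le_mul_of_pos_left _ hq01
    exact_mod_cast this
  set X : ℝ := (q : ℝ) ^ (1 / 2 : ℝ) with hX
  have hX0 : 0 < X := Real.rpow_pos_of_pos hq0R _
  have hXX : X * X = q := by
    rw [hX, ← Real.rpow_add hq0R]
    norm_num
  have hB1 : (1 : ℝ) ≤ B := by exact_mod_cast hB
  have hB0 : (0 : ℝ) < B := by linarith
  have hqqR : (q : ℝ) = q0 * q1 := by rw [hqq]; push_cast; ring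
  have hBB : (B : ℝ) ^ (2 * r) = (B : ℝ) ^ r * (B : ℝ) ^ r := by rw [two_mul, pow_add]
  -- first term
  have hfirst : (q0 : ℝ) * ((r : ℝ) ^ (2 * r) * (B : ℝ) ^ r * q1) ≤
      (1 / 2) * ((q : ℝ) ^ s * ((B : ℝ) ^ (2 * r) * X)) := by
    have e1 : (q0 : ℝ) * ((r : ℝ) ^ (2 * r) * (B : ℝ) ^ r * q1) = (r : ℝ) ^ (2 * r) * ((B : ℝ) ^ r * (X * X)) := by
      rw [hXX, hqqR]; ring
    rw [e1, hBB]
    have e2 : (B : ℝ) ^ r * (X * X) ≤ (B : ℝ) ^ r * ((B : ℝ) ^ r * X) :=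
      mul_le_mul_of_nonneg_left (mul_le_mul_of_nonneg_right hBr hX0.le) (by positivity)
    have e3 : (r : ℝ) ^ (2 * r) ≤ (1 / 2) * (q : ℝ) ^ s := by linarith
    calc (r : ℝ) ^ (2 * r) * ((B : ℝ) ^ r * (X * X)) ≤ ((1 / 2) * (q : ℝ) ^ s) * ((B : ℝ) ^ r * ((B : ℝ) ^ r * X)) :=
          mul_le_mul e3 e2 (by positivity) (by positivity)
      _ = (1 / 2) * ((q : ℝ) ^ s * ((B : ℝ) ^ r * (B : ℝ) ^ r * X)) := by ring
  -- second term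
  have hpow : Y ^ (2 * r - 1) * Y ^ k ≤ (q : ℝ) ^ (s / 2) := by
    rw [← pow_add, hY, ← Real.rpow_natCast, ← Real.rpow_mul hq0R.le]
    refine Real.rpow_le_rpow_of_exponent_le hq1R ?_
    have hcast : ((2 * r - 1 + k : ℕ) : ℝ) ≤ 2 * r + k := by
      have : (2 * r - 1 + k : ℕ) ≤ 2 * r + k := by omega
      exact_mod_cast this
    calc s' * ((2 * r - 1 + k : ℕ) : ℝ) ≤ s' * (2 * r + k) := mul_le_mul_of_nonneg_left hcast hs'0.le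
      _ ≤ s / 2 := by
        rw [hs', div_mul_eq_mul_div, div_le_div_iff₀ hden (by norm_num : (0 : ℝ) < 2)]
        nlinarith
  have hBpow : (B : ℝ) * (B : ℝ) ^ (2 * r - 1) = (B : ℝ) ^ (2 * r) := by
    rw [← pow_succ']
    congr 1
    omega
  obtain ⟨Q0, hQ0⟩ : ∃ Q0 : ℝ, Q0 = (q : ℝ) ^ (s / 4) := ⟨_, rfl⟩
  have hq0Q' : (q0 : ℝ) ≤ Q0 := by
    rw [hQ0]
    exact hq0Q
  have hQ00 : 0 < Q0 := by
    rw [hQ0]
    exact Real.rpow_pos_of_pos hq0R _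
  have htp : (2 * (B : ℝ) * t) ^ (2 * r - 1) ≤ 2 ^ (2 * r - 1) * (B : ℝ) ^ (2 * r - 1) * Y ^ (2 * r - 1) := by
    rw [mul_pow, mul_pow]
    exact mul_le_mul_of_nonneg_left (pow_le_pow_left₀ ht0 ht1 _) (by positivity)
  have hsecond : (q0 : ℝ) * (2 * r * (B * (2 * B * t) ^ (2 * r - 1)) * (C ^ q1.primeFactors.card * √(q1 : ℝ))) ≤
      (1 / 2) * ((q : ℝ) ^ s * ((B : ℝ) ^ (2 * r) * X)) := by
    have f1 : C ^ q1.primeFactors.card * √(q1 : ℝ) ≤ Y ^ k * X :=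
      mul_le_mul hCω hsq (Real.sqrt_nonneg _) (by positivity)
    have f2 : 2 * (r : ℝ) * (B * (2 * B * t) ^ (2 * r - 1)) ≤
        2 * r * (B * (2 ^ (2 * r - 1) * (B : ℝ) ^ (2 * r - 1) * Y ^ (2 * r - 1))) :=
      mul_le_mul_of_nonneg_left (mul_le_mul_of_nonneg_left htp hB0.le) (by positivity)
    have f3 : 2 * (r : ℝ) * (B * (2 * B * t) ^ (2 * r - 1)) * (C ^ q1.primeFactors.card * √(q1 : ℝ)) ≤
        2 * r * (B * (2 ^ (2 * r - 1) * (B : ℝ) ^ (2 * r - 1) * Y ^ (2 * r - 1))) * (Y ^ k * X) :=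
      mul_le_mul f2 f1 (by positivity) (by positivity)
    have f4 : (q0 : ℝ) * (2 * (r : ℝ) * (B * (2 * B * t) ^ (2 * r - 1)) * (C ^ q1.primeFactors.card * √(q1 : ℝ))) ≤
        Q0 * (2 * r * (B * (2 ^ (2 * r - 1) * (B : ℝ) ^ (2 * r - 1) * Y ^ (2 * r - 1))) * (Y ^ k * X)) :=
      mul_le_mul hq0Q' f3 (by positivity) (by positivity)
    have f5 : Q0 * (2 * r * (B * (2 ^ (2 * r - 1) * (B : ℝ) ^ (2 * r - 1) * Y ^ (2 * r - 1))) * (Y ^ k * X)) =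
        (Q0 * (2 * r) * 2 ^ (2 * r - 1)) * (Y ^ (2 * r - 1) * Y ^ k) * ((B : ℝ) ^ (2 * r) * X) := by
      rw [← hBpow]; ring
    have f60 : Q0 * (2 * r) * 2 ^ (2 * r - 1) ≤ 1 / 2 * (q : ℝ) ^ (s / 2) := by
      have f61 : (2 * (r : ℝ)) * 2 ^ (2 * r - 1) ≤ 1 / 2 * (q : ℝ) ^ (s / 4) := by linarith
      have f62 : (q : ℝ) ^ (s / 4) * (q : ℝ) ^ (s / 4) = (q : ℝ) ^ (s / 2) := by
        rw [← Real.rpow_add hq0R]
        congr 1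
        ring
      calc Q0 * (2 * r) * 2 ^ (2 * r - 1) = Q0 * ((2 * (r : ℝ)) * 2 ^ (2 * r - 1)) := by ring
        _ ≤ Q0 * (1 / 2 * (q : ℝ) ^ (s / 4)) := mul_le_mul_of_nonneg_left f61 hQ00.le
        _ = 1 / 2 * (q : ℝ) ^ (s / 2) := by
          rw [hQ0, ← f62]
          ring
    have f6 : (Q0 * (2 * r) * 2 ^ (2 * r - 1)) * (Y ^ (2 * r - 1) * Y ^ k) ≤ (1 / 2 * (q : ℝ) ^ (s / 2)) * (q : ℝ) ^ (s / 2) :=
      mul_le_mul f60 hpow (by positivity) (by positivity)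
    have f7 : (1 / 2 * (q : ℝ) ^ (s / 2)) * (q : ℝ) ^ (s / 2) = (1 / 2) * (q : ℝ) ^ s := by
      rw [mul_assoc, ← Real.rpow_add hq0R]
      congr 2
      ring
    calc (q0 : ℝ) * (2 * (r : ℝ) * (B * (2 * B * t) ^ (2 * r - 1)) * (C ^ q1.primeFactors.card * √(q1 : ℝ)))
        ≤ (Q0 * (2 * r) * 2 ^ (2 * r - 1)) * (Y ^ (2 * r - 1) * Y ^ k) * ((B : ℝ) ^ (2 * r) * X) := by
          rw [← f5]; exact f4
      _ ≤ ((1 / 2) * (q : ℝ) ^ s) * ((B : ℝ) ^ (2 * r) * X) := by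
          refine mul_le_mul_of_nonneg_right ?_ (by positivity)
          rw [← f7]; exact f6
      _ = (1 / 2) * ((q : ℝ) ^ s * ((B : ℝ) ^ (2 * r) * X)) := by ring
  rw [mul_add]
  linarith

end Pool.Agent.Lib.MP_42948a_nt.BU2
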