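import Pool.Agent.Lib.MP_42948a_nt.BU.MA
import Pool.Agent.Lib.MP_42948a_nt.TQ.B4
import Pool.Agent.Lib.MP_42948a_nt.AC.N4
import Pool.Agent.Lib.MP_42948a_nt.BU2.I
import Pool.Agent.Lib.MP_42948a_nt.BU2.J
import Pool.Agent.Lib.MP_42948a_nt.BU2.K

/-!
# Burgess' bound for primitive characters (job M)

Copy `burgess_prim` of `BU/HG.lean`: `r = ⌈2/κ⌉`, the same `κ'`; `C = 2 r` in `W_num'` with `s = κ / 100` (`q0 ≤ q ^ (κ / 400)` is its hypothesis `s / 4 = κ / 400`), `fin_num'` (`q ^ (κ / 400) ≤ q ^ (κ / 100)`), `burgess_ineq'`. The modulus is given as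
`q0 * q1`; `χ` primitive gives `NT χ p` for all primes `p ∣ q0 * q1` (`BU.NT_of_primitive`).
-/

namespace Pool.Agent.Lib.MP_42948a_nt.BU2

open Finset Pool.Agent.Lib.MP_42948a_nt.OA Pool.Agent.Lib.MP_42948a_nt.AC Pool.Agent.Lib.MP_42948a_nt.BU

theorem burgess_prim' (κ : ℝ) (hκ : 0 < κ) (hκ1 : κ ≤ 1 / 4) :
    ∃ κ' : ℝ, 0 < κ' ∧ ∃ q00 : ℕ, ∀ q0 q1 : ℕ, q00 ≤ q0 * q1 → ∀ [NeZero q0] [NeZero q1] [NeZero (q0 * q1)],
      q0.Coprime q1 → (∀ p : ℕ, p.Prime → ¬ p ^ 3 ∣ q1) → (q0 : ℝ) ≤ ((q0 * q1 : ℕ) : ℝ) ^ (κ / 400) →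
      ∀ χ : DirichletCharacter ℂ (q0 * q1), χ.IsPrimitive → ∀ N : ℕ, ((q0 * q1 : ℕ) : ℝ) ^ (1 / 4 + κ) ≤ N →
      ‖∑ n ∈ Icc 1 N, χ (n : ZMod (q0 * q1))‖ ≤ N * ((q0 * q1 : ℕ) : ℝ) ^ (-κ') := by
  classical
  obtain ⟨r, hr_def⟩ : ∃ r : ℕ, r = ⌈2 / κ⌉₊ := ⟨_, rfl⟩
  have hrκ : 2 / κ ≤ r := by rw [hr_def]; exact Nat.le_ceil _
  have h8 : (8 : ℝ) ≤ 2 / κ := by rw [le_div_iff₀ hκ]; linarith
  have hr8 : (8 : ℝ) ≤ r := h8.trans hrκ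
  have hr1 : 1 ≤ r := by
    have : (1 : ℝ) ≤ r := by linarith
    exact_mod_cast this
  have hC1 : (1 : ℝ) ≤ 2 * r := by linarith
  obtain ⟨qa, ha⟩ := W_num' r hr1 (2 * r) hC1 (κ / 100) (by positivity)
  obtain ⟨qb, hb⟩ := fin_num' κ hκ hκ1 r hrκ
  obtain ⟨qc, hc⟩ := RC_lower (κ / 200) (by positivity) (by linarith)
  obtain ⟨C', hC'1, hC'⟩ := divisor_bound (κ / 200) (by positivity)
  obtain ⟨qd, hd⟩ := BB_le (κ / 16) (by positivity)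
  have he : ∀ᶠ q : ℕ in Filter.atTop, C' ≤ (q : ℝ) ^ (κ / 200) :=
    (tendsto_natCast_atTop_atTop (R := ℝ)).eventually
      ((tendsto_rpow_atTop (by positivity : 0 < κ / 200)).eventually_ge_atTop C')
  obtain ⟨qe, he⟩ := Filter.eventually_atTop.mp he
  have hrpos : (0 : ℝ) < r := by linarith
  have hκr : 0 < κ / (4 * r) := by positivity
  refine ⟨min (κ / (4 * r)) (κ / 32), lt_min hκr (by positivity), max (max (max qa qb) (max qc qd)) (max qe 2), ?_⟩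
  intro q0 q1 hq _ _ _ hco hcube hq0le χ hχ N hN
  simp only [max_le_iff] at hq
  obtain ⟨⟨⟨hqa, hqb⟩, hqc, hqd⟩, hqe, hq2⟩ := hq
  have hq1R : (1 : ℝ) ≤ ((q0 * q1 : ℕ) : ℝ) := by exact_mod_cast (by omega : 1 ≤ q0 * q1)
  have hqpos : (0 : ℝ) < ((q0 * q1 : ℕ) : ℝ) := by linarith
  have hN0 : (0 : ℝ) ≤ N := Nat.cast_nonneg _
  have hq0pos : 0 < q0 := Nat.pos_of_ne_zero (NeZero.ne q0)
  have hq1pos : 0 < q1 := Nat.pos_of_ne_zero (NeZero.ne q1)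
  have hfin : ∀ t : ℝ, min (κ / (4 * r)) (κ / 32) ≤ t →
      (N : ℝ) * ((q0 * q1 : ℕ) : ℝ) ^ (-t) ≤
        N * ((q0 * q1 : ℕ) : ℝ) ^ (-(min (κ / (4 * r)) (κ / 32))) := by
    intro t ht
    refine mul_le_mul_of_nonneg_left ?_ hN0
    exact Real.rpow_le_rpow_of_exponent_le hq1R (by linarith)
  rcases lt_or_ge (((q0 * q1 : ℕ) : ℝ) ^ (1 / 2 + κ / 8)) (N : ℝ) with hNbig | hNsmall
  · have hχ1 : χ ≠ 1 := by
      rintro rfl
      have h1 : (1 : DirichletCharacter ℂ (q0 * q1)).conductor = q0 * q1 := hχ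
      rw [DirichletCharacter.conductor_one] at h1
      omega
    refine (TQ.polya (q0 * q1) χ hχ1 N).trans ((hd (q0 * q1) hqd).1.trans ?_)
    refine le_trans ?_ (hfin (κ / 16) ((min_le_right _ _).trans (by linarith)))
    calc ((q0 * q1 : ℕ) : ℝ) ^ (1 / 2 + κ / 16)
        = ((q0 * q1 : ℕ) : ℝ) ^ (1 / 2 + κ / 8) * ((q0 * q1 : ℕ) : ℝ) ^ (-(κ / 16)) := by
          rw [← Real.rpow_add hqpos]; congr 1; ring
      _ ≤ N * ((q0 * q1 : ℕ) : ℝ) ^ (-(κ / 16)) := by gcongr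
  · refine le_trans ?_ (hfin (κ / (4 * r)) (min_le_left _ _))
    have hNT : ∀ p : ℕ, p.Prime → p ∣ q0 * q1 → NT χ p :=
      fun p hp hpq => NT_of_primitive χ hχ p hp hpq
    have hq0le' : (q0 : ℝ) ≤ ((q0 * q1 : ℕ) : ℝ) ^ (κ / 100) :=
      hq0le.trans (Real.rpow_le_rpow_of_exponent_le hq1R (by linarith))
    obtain ⟨A, B, hB1, hBr, hA1, hAN, hA2, hlast⟩ :=
      hb (q0 * q1) q0 N hqb hq0pos hq0le' hN hNsmall
    obtain ⟨𝒜, h𝒜def⟩ : ∃ 𝒜 : Finset ℕ, 𝒜 = RC (q0 * q1) 1 A := ⟨_, rfl⟩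
    have h𝒜 : ∀ a ∈ 𝒜, 1 ≤ a ∧ a ≤ A ∧ a.Coprime (q0 * q1) := by
      intro a haa
      rw [h𝒜def] at haa
      unfold RC at haa
      rw [mem_filter, mem_Icc] at haa
      exact ⟨haa.1.1, haa.1.2, haa.2.2⟩
    have hcard : (A : ℝ) * ((q0 * q1 : ℕ) : ℝ) ^ (-(κ / 100)) ≤ (𝒜.card : ℝ) := by
      have h1 := hc (q0 * q1) hqc 1 (by
        rw [Nat.cast_one]
        exact Real.one_le_rpow hq1R (by positivity)) A hA1 hA2
      rw [h𝒜def]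
      have h2 : (2 * (κ / 200)) = κ / 100 := by ring
      rw [h2] at h1
      exact h1
    have hcardpos : (0 : ℝ) < (𝒜.card : ℝ) := by
      refine lt_of_lt_of_le ?_ hcard
      have : (0 : ℝ) < (A : ℝ) := by exact_mod_cast hA1
      have h3 : (0 : ℝ) < ((q0 * q1 : ℕ) : ℝ) ^ (-(κ / 100)) := Real.rpow_pos_of_pos hqpos _
      positivity
    obtain ⟨τm, hτm⟩ : ∃ τm : ℕ, τm = ⌊((q0 * q1 : ℕ) : ℝ) ^ (κ / 100)⌋₊ := ⟨_, rfl⟩
    have hτmle : (τm : ℝ) ≤ ((q0 * q1 : ℕ) : ℝ) ^ (κ / 100) := by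
      rw [hτm]
      exact Nat.floor_le (Real.rpow_nonneg hqpos.le _)
    have hτ : ∀ v : ℕ, 0 < v → v ≤ A * N → v.divisors.card ≤ τm := by
      intro v hv hvA
      rw [hτm]
      refine Nat.le_floor ?_
      have hvq : (v : ℝ) ≤ ((q0 * q1 : ℕ) : ℝ) := by exact_mod_cast hvA.trans hAN.le
      calc (v.divisors.card : ℝ) ≤ C' * (v : ℝ) ^ (κ / 200) := hC' v hv
        _ ≤ ((q0 * q1 : ℕ) : ℝ) ^ (κ / 200) * ((q0 * q1 : ℕ) : ℝ) ^ (κ / 200) := by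
            refine mul_le_mul (he (q0 * q1) hqe) ?_ (Real.rpow_nonneg (Nat.cast_nonneg _) _)
              (Real.rpow_nonneg hqpos.le _)
            exact Real.rpow_le_rpow (Nat.cast_nonneg _) hvq (by positivity)
        _ = ((q0 * q1 : ℕ) : ℝ) ^ (κ / 100) := by
            rw [← Real.rpow_add hqpos]; congr 1; ring
    obtain ⟨Z, hZ0, hZ1, hZ2⟩ := burgess_ineq' hr1 q0 q1 A B N τm hco hcube χ
      (fun p hp hpq => hNT p hp (hpq.trans (Dvd.intro_left q0 rfl))) 𝒜 h𝒜 hAN hτ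
    have hW := ha (q0 * q1) q0 q1 hqa rfl hq0pos (by
      have h4 : κ / 100 / 4 = κ / 400 := by ring
      rw [h4]
      exact hq0le) hq1pos B hB1 hBr
    refine hlast _ (𝒜.card : ℝ) τm _ Z (norm_nonneg _) hcardpos hcard (Nat.cast_nonneg _) hτmle ?_ hW hZ0 ?_ hZ2
    · positivity
    · exact hZ1

end Pool.Agent.Lib.MP_42948a_nt.BU2
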