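import Pool.Agent.Lib.MP_42948a_nt.BM.Defs
import Pool.Agent.Lib.MP_42948a_nt.BU.HH
import Pool.Agent.Lib.MP_42948a_nt.BU2.L
import Pool.Agent.Lib.MP_42948a_nt.BU2.M

/-!
# Burgess' bound for all nonprincipal characters (job Main)

Let `κ > 0`, `κ2 = min κ (1/4)`; `κ1`, `q00` from `burgess_prim' (κ2 / 2)`; `κ' = min (κ1 / 32) (min (κ2 / 8) (1 / 32))` as in `burgess` of `BU/HI.lean`, `θ = κ2 / 38400`. Let `d ≥ d0`, `d = e r'` as in `Cub θ d`, `χ ≠ 1`, `N ≥ d ^ (1/4 + κ) ≥ d ^ (1/4 + κ2)`.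
Copy the proof of `BU.burgess` (with its private lemmas `HI_small`, `HI_triv`; `BU.imprim`; `q = ξ.conductor`, the primitive character `ξ.primitiveCharacter`). In the case `q > d ^ (1/16)`: `q ∣ d = e r'` (`conductor_dvd_level`), `e > 0`,
`modulus_split'` gives `q = q0 q1`, `q0 ≤ e ^ 3 ≤ d ^ (3 θ) ≤ q ^ (48 θ) = q ^ ((κ2 / 2) / 400)`. To apply `burgess_prim'` prove first the following general form: for all `q`, `χ : DirichletCharacter ℂ q` primitive and `q0 q1` with `q = q0 * q1` .. the bound for `q`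
(`rintro`/`subst` replaces the variable `q` by `q0 * q1`; do this in a separate lemma where `q` is a variable, and then use it with `q = ξ.conductor`).
-/

namespace Pool.Agent.Lib.MP_42948a_nt.BU2

open Finset Pool.Agent.Lib.MP_42948a_nt.OA Pool.Agent.Lib.MP_42948a_nt.AC Pool.Agent.Lib.MP_42948a_nt.BU

private theorem Main_small (q : ℕ) (hq : 1 ≤ q) : BB q ≤ (q : ℝ) ^ (5 / 2 : ℝ) := by
  have hq1 : (1 : ℝ) ≤ q := by exact_mod_cast hq
  have hq0 : (0 : ℝ) < q := by linarith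
  have h1 : (q.divisors.card : ℝ) ≤ q := by exact_mod_cast Nat.card_divisors_le_self q
  have h2 : 1 + Real.log q ≤ q := by
    have := Real.log_le_sub_one_of_pos hq0
    linarith
  have h3 : (0 : ℝ) ≤ 1 + Real.log q := by
    have := Real.log_nonneg hq1
    linarith
  have h4 : (q : ℝ) ^ (5 / 2 : ℝ) = √(q : ℝ) * q * q := by
    rw [Real.sqrt_eq_rpow]
    have h5 : (5 / 2 : ℝ) = 1 / 2 + 1 + 1 := by norm_num
    rw [h5, Real.rpow_add hq0, Real.rpow_add hq0, Real.rpow_one]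
  rw [h4]
  unfold BB
  have h6 : √(q : ℝ) * (q.divisors.card : ℝ) ≤ √(q : ℝ) * q :=
    mul_le_mul_of_nonneg_left h1 (Real.sqrt_nonneg _)
  exact mul_le_mul h6 h2 h3 (by positivity)

private theorem Main_triv {q : ℕ} (χ : DirichletCharacter ℂ q) (M : ℕ) :
    ‖∑ n ∈ Icc 1 M, χ (n : ZMod q)‖ ≤ M := by
  refine (norm_sum_le _ _).trans ?_
  have h1 : ∑ n ∈ Icc 1 M, ‖χ (n : ZMod q)‖ ≤ ∑ n ∈ Icc 1 M, (1 : ℝ) :=
    Finset.sum_le_sum fun n _ => DirichletCharacter.norm_le_one χ _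
  refine h1.trans ?_
  simp

private theorem Main_gen (κ : ℝ) (hκ : 0 < κ) (hκ1 : κ ≤ 1 / 4) :
    ∃ κ' : ℝ, 0 < κ' ∧ ∃ q00 : ℕ, ∀ q : ℕ, q00 ≤ q → ∀ q0 q1 : ℕ, q = q0 * q1 → 0 < q0 → 0 < q1 →
      q0.Coprime q1 → (∀ p : ℕ, p.Prime → ¬ p ^ 3 ∣ q1) → (q0 : ℝ) ≤ (q : ℝ) ^ (κ / 400) →
      ∀ χ : DirichletCharacter ℂ q, χ.IsPrimitive → ∀ N : ℕ, (q : ℝ) ^ (1 / 4 + κ) ≤ N →
      ‖∑ n ∈ Icc 1 N, χ (n : ZMod q)‖ ≤ N * (q : ℝ) ^ (-κ') := by
  obtain ⟨κ', h1, q00, h2⟩ := burgess_prim' κ hκ hκ1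
  refine ⟨κ', h1, q00, ?_⟩
  intro q hq q0 q1 he h3 h4 hc hp hle χ hχ N hN
  subst he
  have n0 : NeZero q0 := ⟨h3.ne'⟩
  have n1 : NeZero q1 := ⟨h4.ne'⟩
  have n2 : NeZero (q0 * q1) := ⟨(Nat.mul_pos h3 h4).ne'⟩
  exact h2 q0 q1 hq hc hp hle χ hχ N hN

private theorem Main_min (κ : ℝ) (hκ : 0 < κ) (hκ1 : κ ≤ 1 / 4) :
    ∃ κ' : ℝ, 0 < κ' ∧ ∃ d0 : ℕ, ∀ d : ℕ, d0 ≤ d → BM.Cub (κ / 38400) d →
      ∀ ξ : DirichletCharacter ℂ d, ξ ≠ 1 → ∀ N : ℕ, (d : ℝ) ^ (1 / 4 + κ) ≤ N →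
      ‖∑ n ∈ Icc 1 N, ξ (n : ZMod d)‖ ≤ N * (d : ℝ) ^ (-κ') := by
  obtain ⟨κ1, hκ1p, q00, hprim⟩ := Main_gen (κ / 2) (by positivity) (by linarith)
  set κ' : ℝ := min (κ1 / 32) (min (κ / 8) (1 / 32)) with hκ'
  have hκ'0 : 0 < κ' := by
    rw [hκ']
    refine lt_min (by positivity) (lt_min (by positivity) (by norm_num))
  have hκ'1 : κ' ≤ κ1 / 32 := min_le_left _ _
  have hκ'2 : κ' ≤ κ / 8 := (min_le_right _ _).trans (min_le_left _ _)
  have hκ'3 : κ' ≤ 1 / 32 := (min_le_right _ _).trans (min_le_right _ _)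
  obtain ⟨d1, hd1⟩ := BB_le κ' hκ'0
  refine ⟨κ', hκ'0, max d1 (max (q00 ^ 16) 1), ?_⟩
  intro d hd hcub ξ hξ N hN
  have hdd1 : d1 ≤ d := (le_max_left _ _).trans hd
  have hdq : q00 ^ 16 ≤ d := ((le_max_left _ _).trans (le_max_right _ _)).trans hd
  have hd1' : 1 ≤ d := ((le_max_right _ _).trans (le_max_right _ _)).trans hd
  have hdR : (1 : ℝ) ≤ d := by exact_mod_cast hd1'
  have hd0 : (0 : ℝ) < d := by linarith
  have nd : NeZero d := ⟨by omega⟩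
  obtain ⟨e', r', hde, hle, hcf⟩ := hcub
  have he' : 0 < e' := by
    rcases Nat.eq_zero_or_pos e' with h0 | h0
    · rw [h0, zero_mul] at hde
      omega
    · exact h0
  have hτ := (hd1 d hdd1).2
  have hne : NeZero ξ.conductor := ⟨ξ.conductor_ne_zero⟩
  set q := ξ.conductor with hq
  have hq1 : 1 ≤ q := Nat.one_le_iff_ne_zero.2 hne.out
  have hqd : q ≤ d := Nat.le_of_dvd (by omega) ξ.conductor_dvd_level
  have hqR : (1 : ℝ) ≤ q := by exact_mod_cast hq1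
  have hq0 : (0 : ℝ) < q := by linarith
  have hqdR : (q : ℝ) ≤ d := by exact_mod_cast hqd
  have hχ1 : ξ.primitiveCharacter ≠ 1 := by
    intro h
    apply hξ
    have h1 := ξ.changeLevel_primitiveCharacter
    rw [h, DirichletCharacter.changeLevel_one] at h1
    exact h1.symm
  have hN0 : (0 : ℝ) ≤ N := Nat.cast_nonneg N
  have key : ∀ e ∈ d.divisors, ‖∑ n ∈ Icc 1 (N / e), ξ.primitiveCharacter (n : ZMod ξ.conductor)‖ ≤
      N * (d : ℝ) ^ (-(2 * κ')) := by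
    intro e _
    have hNe : ((N / e : ℕ) : ℝ) ≤ N := by exact_mod_cast Nat.div_le_self N e
    by_cases hsm : (q : ℝ) ≤ (d : ℝ) ^ (1 / 16 : ℝ)
    · have h1 := TQ.polya q ξ.primitiveCharacter hχ1 (N / e)
      refine h1.trans ((Main_small q hq1).trans ?_)
      have h2 : (q : ℝ) ^ (5 / 2 : ℝ) ≤ ((d : ℝ) ^ (1 / 16 : ℝ)) ^ (5 / 2 : ℝ) :=
        Real.rpow_le_rpow hq0.le hsm (by norm_num)
      refine h2.trans ?_
      rw [← Real.rpow_mul hd0.le]
      have h3 : (d : ℝ) ^ (1 / 4 + κ) * (d : ℝ) ^ (-(2 * κ')) ≤ N * (d : ℝ) ^ (-(2 * κ')) :=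
        mul_le_mul_of_nonneg_right hN (by positivity)
      refine le_trans ?_ h3
      rw [← Real.rpow_add hd0]
      apply Real.rpow_le_rpow_of_exponent_le hdR
      linarith
    · push Not at hsm
      have hq00 : q00 ≤ q := by
        have h4 : (q00 : ℝ) ≤ (d : ℝ) ^ (1 / 16 : ℝ) := by
          have h5 : ((q00 : ℝ) ^ (16 : ℕ)) ≤ d := by exact_mod_cast hdq
          have h6 : ((q00 : ℝ) ^ (16 : ℕ)) ^ (1 / 16 : ℝ) ≤ (d : ℝ) ^ (1 / 16 : ℝ) :=
            Real.rpow_le_rpow (by positivity) h5 (by norm_num)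
          have h7 : ((q00 : ℝ) ^ (16 : ℕ)) ^ (1 / 16 : ℝ) = q00 := by
            rw [← Real.rpow_natCast, ← Real.rpow_mul (Nat.cast_nonneg _)]
            norm_num
          rw [h7] at h6
          exact h6
        have h8 : (q00 : ℝ) < q := lt_of_le_of_lt h4 hsm
        have h9 : q00 < q := by exact_mod_cast h8
        exact h9.le
      by_cases hbig : (q : ℝ) ^ (1 / 4 + κ / 2) ≤ ((N / e : ℕ) : ℝ)
      · obtain ⟨q0, q1, hqq, hp0, hp1, hcop, hcf', hq0e⟩ := modulus_split' q e' r' hq1 he' hcf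
          (hde ▸ ξ.conductor_dvd_level)
        have hq0q : (q0 : ℝ) ≤ (q : ℝ) ^ (κ / 2 / 400) := by
          have g1 : (q0 : ℝ) ≤ (e' : ℝ) ^ (3 : ℕ) := by exact_mod_cast hq0e
          have g2 : (e' : ℝ) ^ (3 : ℕ) ≤ ((d : ℝ) ^ (κ / 38400)) ^ (3 : ℕ) :=
            pow_le_pow_left₀ (Nat.cast_nonneg _) hle 3
          have g3 : ((d : ℝ) ^ (κ / 38400)) ^ (3 : ℕ) = ((d : ℝ) ^ (1 / 16 : ℝ)) ^ (κ / 2 / 400) := by
            rw [← Real.rpow_natCast, ← Real.rpow_mul hd0.le, ← Real.rpow_mul hd0.le]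
            congr 1
            push_cast
            ring
          have g4 : ((d : ℝ) ^ (1 / 16 : ℝ)) ^ (κ / 2 / 400) ≤ (q : ℝ) ^ (κ / 2 / 400) :=
            Real.rpow_le_rpow (by positivity) hsm.le (by positivity)
          exact g1.trans (g2.trans (g3.le.trans g4))
        have h10 := hprim q hq00 q0 q1 hqq hp0 hp1 hcop hcf' hq0q ξ.primitiveCharacter
          ξ.primitiveCharacter_isPrimitive (N / e) hbig
        refine h10.trans ?_
        have h11 : (q : ℝ) ^ (-κ1) ≤ (d : ℝ) ^ (-(2 * κ')) := by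
          have h12 : (q : ℝ) ^ (-κ1) ≤ ((d : ℝ) ^ (1 / 16 : ℝ)) ^ (-κ1) :=
            Real.rpow_le_rpow_of_nonpos (by positivity) hsm.le (by linarith)
          refine h12.trans ?_
          rw [← Real.rpow_mul hd0.le]
          apply Real.rpow_le_rpow_of_exponent_le hdR
          linarith
        exact mul_le_mul hNe h11 (by positivity) hN0
      · push Not at hbig
        refine (Main_triv ξ.primitiveCharacter (N / e)).trans ?_
        refine hbig.le.trans ?_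
        have h13 : (q : ℝ) ^ (1 / 4 + κ / 2) ≤ (d : ℝ) ^ (1 / 4 + κ / 2) :=
          Real.rpow_le_rpow hq0.le hqdR (by linarith)
        refine h13.trans ?_
        have h3 : (d : ℝ) ^ (1 / 4 + κ) * (d : ℝ) ^ (-(2 * κ')) ≤ N * (d : ℝ) ^ (-(2 * κ')) :=
          mul_le_mul_of_nonneg_right hN (by positivity)
        refine le_trans ?_ h3
        rw [← Real.rpow_add hd0]
        apply Real.rpow_le_rpow_of_exponent_le hdR
        linarith
  refine (imprim ξ N).trans ?_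
  refine (Finset.sum_le_sum key).trans ?_
  rw [Finset.sum_const, nsmul_eq_mul]
  have h14 : (d.divisors.card : ℝ) * (N * (d : ℝ) ^ (-(2 * κ'))) ≤
      (d : ℝ) ^ κ' * (N * (d : ℝ) ^ (-(2 * κ'))) :=
    mul_le_mul_of_nonneg_right hτ (by positivity)
  refine h14.trans (le_of_eq ?_)
  have h15 : (d : ℝ) ^ (-κ') = (d : ℝ) ^ κ' * (d : ℝ) ^ (-(2 * κ')) := by
    rw [← Real.rpow_add hd0]
    congr 1
    ring
  rw [h15]
  ring

theorem burgess_all : Pool.Agent.Lib.MP_42948a_nt.BM.BurgessAll := by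
  intro κ hκ
  have h0 : 0 < min κ (1 / 4) := lt_min hκ (by norm_num)
  obtain ⟨κ', h1, d0, h2⟩ := Main_min (min κ (1 / 4)) h0 (min_le_right _ _)
  refine ⟨κ', min κ (1 / 4) / 38400, h1, by positivity, max d0 1, ?_⟩
  intro d hd hcub χ hχ N hN
  refine h2 d ((le_max_left _ _).trans hd) hcub χ hχ N (le_trans ?_ hN)
  have hd1 : (1 : ℝ) ≤ d := by exact_mod_cast (le_max_right d0 1).trans hd
  apply Real.rpow_le_rpow_of_exponent_le hd1
  linarith [min_le_left κ (1 / 4)]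

end Pool.Agent.Lib.MP_42948a_nt.BU2
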