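import Pool.Agent.Lib.MP_42948a_nt.BU.Defs
import Pool.Agent.Lib.MP_42948a_nt.WX.Main

/-!
# Burgess' bound for all characters: definitions

The definitions `NT`, `CS`, `Dl`, `Tup`, `nu`, `TS` are those of `BU/Defs.lean`; `WX.weil_all r hr : WeilAll r (2 * r)` is the Weil bound for all characters mod `p`.
-/

namespace Pool.Agent.Lib.MP_42948a_nt.BU2

open Finset

/-- the weight: the product of the `√(p ^ v_p(q))` over the primes `p ∣ q` with `p ∣ D` -/
noncomputable def wt (q : ℕ) (D : ℤ) : ℝ :=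
  ∏ p ∈ q.primeFactors, if (p : ℤ) ∣ D then √((p ^ q.factorization p : ℕ) : ℝ) else 1

/-- the local bound for a complete sum to a cube-free modulus -/
noncomputable def lb (C : ℝ) (q : ℕ) (D : ℤ) : ℝ :=
  ∏ p ∈ q.primeFactors, if (p : ℤ) ∣ D then ((p ^ q.factorization p : ℕ) : ℝ) else C * √((p ^ q.factorization p : ℕ) : ℝ)

end Pool.Agent.Lib.MP_42948a_nt.BU2
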