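import Pool.Agent.Lib.MP_42948a_nt.BU.CB
import Pool.Agent.Lib.MP_42948a_nt.BU2.Defs

/-!
# Complete sums to a prime modulus (job A)

Copy `CS_prime` of `BU/CC.lean`; `WX.weil_all r hr` in place of `hC` (it needs only `χ ≠ 1`).
-/

namespace Pool.Agent.Lib.MP_42948a_nt.BU2

open Finset Pool.Agent.Lib.MP_42948a_nt.BU

theorem CS_prime' {r : ℕ} (hr : 1 ≤ r) (β : Fin r ⊕ Fin r → ℤ) (j : Fin r ⊕ Fin r) (p : ℕ) [Fact p.Prime]
    (χ : DirichletCharacter ℂ p) (hNT : NT χ p) :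
    ‖CS χ β‖ ≤ if (p : ℤ) ∣ Dl β j then (p : ℝ) else (2 * r) * √(p : ℝ) := by
  split_ifs with hd
  · exact CS_trivial χ β
  · obtain ⟨n, hn, -, hne⟩ := hNT
    have hχ1 : χ ≠ 1 := by
      rintro rfl
      apply hne
      have hu : IsUnit (n : ZMod p) := (ZMod.isUnit_iff_coprime n p).mpr hn
      exact MulChar.one_apply hu
    have hb : ∀ i, i ≠ j → ((β i : ZMod p)) ≠ (β j : ZMod p) := by
      intro i hij heq
      apply hd
      have h1 : (p : ℤ) ∣ β i - β j := (ZMod.intCast_eq_intCast_iff_dvd_sub (β j) (β i) p).mp heq.symm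
      exact h1.trans (Finset.dvd_prod_of_mem (fun i => β i - β j) (Finset.mem_erase.mpr ⟨hij, Finset.mem_univ i⟩))
    exact WX.weil_all r hr p χ hχ1 (fun i => (β i : ZMod p)) j hb

end Pool.Agent.Lib.MP_42948a_nt.BU2
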