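import Mathlib

/-!
# The number of zeros of a sum of fractions (job B1)

Let `ι = Fin r ⊕ Fin r`, `ε i = 1` for `i = inl _` and `-1` for `i = inr _`, `N = ∑ i, C (ε i) * ∏ k ∈ univ.erase i, (X + C (b k))`, of degree `≤ 2 r - 1`. `N.eval (- b j) = ε j * ∏_{k ≠ j} (b k - b j) ≠ 0` (for `i ≠ j` the product
over `k ≠ i` contains `k = j`), so `N ≠ 0` and `N` has at most `2 r - 1 ≤ 2 r` roots (`card_roots'`). If `u + b i ≠ 0` for all `i` then
`N.eval u = (∏_k (u + b k)) * (∑_i ε i (u + b i)⁻¹)` (`Finset.mul_prod_erase`), `Fintype.sum_sum_type`, so the set is contained in the roots.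
-/

namespace Pool.Agent.Lib.MP_42948a_nt.BU2

open Finset Polynomial

private def B1_eps {r : ℕ} (p : ℕ) (i : Fin r ⊕ Fin r) : ZMod p := Sum.elim (fun _ => 1) (fun _ => -1) i

open Classical in
private noncomputable def B1_N {r : ℕ} (p : ℕ) (b : Fin r ⊕ Fin r → ZMod p) : (ZMod p)[X] :=
  ∑ i, C (B1_eps p i) * ∏ k ∈ univ.erase i, (X + C (b k))

open Classical in
private theorem B1_eval {r : ℕ} (p : ℕ) (b : Fin r ⊕ Fin r → ZMod p) (u : ZMod p) :
    (B1_N p b).eval u = ∑ i, B1_eps p i * ∏ k ∈ univ.erase i, (u + b k) := by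
  unfold B1_N
  simp only [eval_finsetSum, eval_mul, eval_C, eval_prod, eval_add, eval_X]

open Classical in
private theorem B1_deg {r : ℕ} (p : ℕ) [Fact p.Prime] (b : Fin r ⊕ Fin r → ZMod p) :
    (B1_N p b).natDegree ≤ 2 * r := by
  unfold B1_N
  refine natDegree_sum_le_of_forall_le _ _ fun i _ => ?_
  refine natDegree_C_mul_le _ _ |>.trans ?_
  refine (natDegree_prod_le _ _).trans ?_
  refine (Finset.sum_le_card_nsmul _ _ 1 fun k _ => (natDegree_X_add_C (b k)).le).trans ?_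
  rw [smul_eq_mul, mul_one]
  refine (Finset.card_le_univ _).trans ?_
  rw [Fintype.card_sum, Fintype.card_fin]
  omega

open Classical in
theorem root_count {r : ℕ} (p : ℕ) [Fact p.Prime] (b : Fin r ⊕ Fin r → ZMod p) (j : Fin r ⊕ Fin r)
    (hb : ∀ i, i ≠ j → b i ≠ b j) :
    (univ.filter (fun u : ZMod p => (∀ i, u + b i ≠ 0) ∧
      ∑ i : Fin r, (u + b (Sum.inl i))⁻¹ - ∑ i : Fin r, (u + b (Sum.inr i))⁻¹ = 0)).card ≤ 2 * r := by
  have hne : B1_N p b ≠ 0 := by
    intro h0
    have h1 := B1_eval p b (-b j)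
    rw [h0, eval_zero, Finset.sum_eq_single j] at h1
    · have h2 : B1_eps p j ≠ 0 := by
        unfold B1_eps
        rcases j with j | j <;> simp
      have h3 : ∏ k ∈ univ.erase j, (-b j + b k) ≠ 0 := by
        refine Finset.prod_ne_zero_iff.2 fun k hk => ?_
        intro h4
        exact hb k (Finset.ne_of_mem_erase hk) (by linear_combination h4)
      exact mul_ne_zero h2 h3 h1.symm
    · intro i _ hij
      have h2 : ∏ k ∈ univ.erase i, (-b j + b k) = 0 :=
        Finset.prod_eq_zero (Finset.mem_erase.2 ⟨hij.symm, Finset.mem_univ j⟩) (by ring)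
      rw [h2, mul_zero]
    · intro h2
      exact absurd (Finset.mem_univ j) h2
  have hsub : univ.filter (fun u : ZMod p => (∀ i, u + b i ≠ 0) ∧
      ∑ i : Fin r, (u + b (Sum.inl i))⁻¹ - ∑ i : Fin r, (u + b (Sum.inr i))⁻¹ = 0) ⊆
      (B1_N p b).roots.toFinset := by
    intro u hu
    obtain ⟨h1, h2⟩ := (Finset.mem_filter.1 hu).2
    rw [Multiset.mem_toFinset, mem_roots hne, IsRoot.def, B1_eval]
    have h3 : ∀ i ∈ (univ : Finset (Fin r ⊕ Fin r)), B1_eps p i * ∏ k ∈ univ.erase i, (u + b k) =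
        (∏ k, (u + b k)) * (B1_eps p i * (u + b i)⁻¹) := by
      intro i hi
      rw [← Finset.mul_prod_erase univ (fun k => u + b k) hi]
      have h4 := h1 i
      field_simp
    rw [Finset.sum_congr rfl h3, ← Finset.mul_sum, Fintype.sum_sum_type]
    have h5 : ∑ i : Fin r, B1_eps p (Sum.inl i) * (u + b (Sum.inl i))⁻¹ +
        ∑ i : Fin r, B1_eps p (Sum.inr i) * (u + b (Sum.inr i))⁻¹ = 0 := by
      rw [← h2, sub_eq_add_neg, ← Finset.sum_neg_distrib]
      unfold B1_eps
      simp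
    rw [h5, mul_zero]
  calc _ ≤ (B1_N p b).roots.toFinset.card := Finset.card_le_card hsub
    _ ≤ Multiset.card (B1_N p b).roots := Multiset.toFinset_card_le _
    _ ≤ (B1_N p b).natDegree := card_roots' _
    _ ≤ 2 * r := B1_deg p b

end Pool.Agent.Lib.MP_42948a_nt.BU2
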