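import Pool.Agent.Lib.MP_42948a_nt.BU.Defs

/-!
# Characters mod `p ^ 2` near a point (job B2)

`ψ s = χ (1 + p * s.val)` (`s : ZMod p`, the argument in `ZMod (p ^ 2)`). If `s.val + t.val = s'.val (mod p)`, say `s.val + t.val = s'.val + p k`, then `(1 + p s)(1 + p t) = 1 + p (s + t) + p ^ 2 s t = 1 + p s' + p ^ 2 (k + s t) = 1 + p s'` in
`ZMod (p ^ 2)` (`ZMod.natCast_self`, push casts), so `ψ (s + t) = ψ s * ψ t`; `ψ 0 = 1`. More generally `χ (1 + p * n) = ψ (n : ZMod p)` for every natural number `n` (`n = (n : ZMod p).val + p * (n / p)`, `ZMod.val_natCast`). `ψ ≠ 1`: by `NT` there is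
`n ≡ 1 mod p ^ 2 / p = p` with `χ n ≠ 1`; `n = 1 + p k` (if `n = 0` then `p ∣ 1`, impossible; `n ≥ 1` and `p ∣ n - 1`), so `ψ k ≠ 1`.
The last claim. If `x` is not a unit then `p ∣ x.val` (`ZMod.isUnit_iff_coprime`-like), `x + p t` is not a unit either and both sides vanish (`MulChar.map_nonunit`). If `x` is a unit: `x + p t = x (1 + p (t y))` with `y = x⁻¹.val` (`x⁻¹` in `ZMod (p ^ 2)`,
`ZMod.mul_inv_of_unit`), so `χ (x + p t) = χ x * ψ ((t y : ℕ) : ZMod p)` and `(y : ZMod p) = castHom (x⁻¹) = (castHom x)⁻¹` (`castHom x * castHom x⁻¹ = 1`).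
-/

namespace Pool.Agent.Lib.MP_42948a_nt.BU2

open Finset Pool.Agent.Lib.MP_42948a_nt.BU

private theorem b2_sq (p : ℕ) : ((p : ZMod (p ^ 2)) * (p : ZMod (p ^ 2))) = 0 := by
  have h : (((p ^ 2 : ℕ)) : ZMod (p ^ 2)) = 0 := ZMod.natCast_self _
  rw [Nat.cast_pow] at h
  rw [← pow_two]
  exact h

private theorem b2_add (p m n : ℕ) :
    (1 + ((p * (m + n) : ℕ) : ZMod (p ^ 2))) =
      (1 + ((p * m : ℕ) : ZMod (p ^ 2))) * (1 + ((p * n : ℕ) : ZMod (p ^ 2))) := by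
  have h := b2_sq p
  push_cast
  linear_combination (-(m : ZMod (p ^ 2)) * n) * h

private theorem b2_mod (p n : ℕ) :
    (1 + ((p * (n % p) : ℕ) : ZMod (p ^ 2))) = 1 + ((p * n : ℕ) : ZMod (p ^ 2)) := by
  have h := b2_sq p
  have h1 : ((n : ℕ) : ZMod (p ^ 2)) = ((n % p + p * (n / p) : ℕ) : ZMod (p ^ 2)) := by
    rw [Nat.mod_add_div]
  push_cast at h1 ⊢
  rw [h1]
  linear_combination (-((n / p : ℕ) : ZMod (p ^ 2))) * h

theorem psq_shift (p : ℕ) [Fact p.Prime] [NeZero (p ^ 2)] (χ : DirichletCharacter ℂ (p ^ 2)) (hNT : NT χ p) :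
    ∃ ψ : AddChar (ZMod p) ℂ, ψ ≠ 1 ∧ ∀ (x : ZMod (p ^ 2)) (t : ℕ),
      χ (x + ((p * t : ℕ) : ZMod (p ^ 2))) =
        χ x * ψ ((t : ZMod p) * (ZMod.castHom (dvd_pow_self p two_ne_zero) (ZMod p) x)⁻¹) := by
  have hp : p.Prime := Fact.out
  have : NeZero p := ⟨hp.ne_zero⟩
  set c : ℕ → ZMod (p ^ 2) := fun n => 1 + ((p * n : ℕ) : ZMod (p ^ 2)) with hc
  have hmod : ∀ n : ℕ, c ((n : ZMod p)).val = c n := by
    intro n
    rw [ZMod.val_natCast]
    exact b2_mod p n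
  have hadd : ∀ m n : ℕ, c (m + n) = c m * c n := fun m n => b2_add p m n
  have h0 : c 0 = 1 := by
    show (1 + ((p * 0 : ℕ) : ZMod (p ^ 2))) = 1
    rw [Nat.mul_zero, Nat.cast_zero, add_zero]
  let ψ : AddChar (ZMod p) ℂ :=
    { toFun := fun s => χ (c s.val)
      map_zero_eq_one' := by
        show χ (c (0 : ZMod p).val) = 1
        rw [ZMod.val_zero, h0, map_one]
      map_add_eq_mul' := by
        intro s t
        show χ (c (s + t).val) = χ (c s.val) * χ (c t.val)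
        have h1 : s + t = ((s.val + t.val : ℕ) : ZMod p) := by
          rw [Nat.cast_add, ZMod.natCast_zmod_val, ZMod.natCast_zmod_val]
        rw [h1, hmod, hadd, map_mul] }
  have hψ : ∀ n : ℕ, ψ (n : ZMod p) = χ (c n) := by
    intro n
    show χ (c ((n : ZMod p)).val) = χ (c n)
    rw [hmod]
  refine ⟨ψ, ?_, ?_⟩
  · intro h1
    obtain ⟨n, _, hn2, hn3⟩ := hNT
    have h2 : p ^ 2 / p = p := by
      rw [pow_two, Nat.mul_div_cancel _ hp.pos]
    rw [h2] at hn2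
    have hn1 : 1 ≤ n := by
      by_contra h3
      have h4 : n = 0 := by omega
      rw [h4] at hn2
      have h5 : p ∣ 1 := (Nat.modEq_zero_iff_dvd).1 hn2.symm
      exact hp.one_lt.ne' (Nat.dvd_one.1 h5)
    obtain ⟨k, hk⟩ := (Nat.modEq_iff_dvd' hn1).1 hn2.symm
    have h3 : (n : ZMod (p ^ 2)) = c k := by
      have h4 : n = 1 + p * k := by omega
      show (n : ZMod (p ^ 2)) = 1 + ((p * k : ℕ) : ZMod (p ^ 2))
      rw [h4, Nat.cast_add, Nat.cast_one]
    apply hn3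
    rw [h3, ← hψ, h1]
    rfl
  · intro x t
    set f := ZMod.castHom (dvd_pow_self p two_ne_zero) (ZMod p) with hf
    by_cases hx : IsUnit x
    · have hxi : x * x⁻¹ = 1 := ZMod.mul_inv_of_unit x hx
      have hy : ((x⁻¹).val : ZMod (p ^ 2)) = x⁻¹ := ZMod.natCast_zmod_val _
      have e1 : x + ((p * t : ℕ) : ZMod (p ^ 2)) = x * c (t * (x⁻¹).val) := by
        show x + ((p * t : ℕ) : ZMod (p ^ 2)) =
          x * (1 + ((p * (t * (x⁻¹).val) : ℕ) : ZMod (p ^ 2)))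
        push_cast
        rw [hy]
        linear_combination (-(p : ZMod (p ^ 2)) * t) * hxi
      have e2 : f x * f x⁻¹ = 1 := by
        rw [← map_mul, hxi, map_one]
      have e3 : f x⁻¹ = (f x)⁻¹ := eq_inv_of_mul_eq_one_right e2
      have e4 : (((x⁻¹).val : ℕ) : ZMod p) = (f x)⁻¹ := by
        rw [← e3, ← map_natCast f, hy]
      rw [e1, map_mul, ← hψ, Nat.cast_mul, e4]
    · have h1 : ¬ IsUnit (x + ((p * t : ℕ) : ZMod (p ^ 2))) := by
        intro h2
        apply hx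
        have h3 : IsUnit (f (x + ((p * t : ℕ) : ZMod (p ^ 2)))) := h2.map f
        rw [map_add, map_natCast, Nat.cast_mul, ZMod.natCast_self, zero_mul, add_zero] at h3
        have h4 : x = ((x.val : ℕ) : ZMod (p ^ 2)) := (ZMod.natCast_zmod_val x).symm
        rw [h4, map_natCast, ZMod.isUnit_iff_coprime] at h3
        rw [h4, ZMod.isUnit_iff_coprime]
        exact Nat.Coprime.pow_right 2 h3
      rw [MulChar.map_nonunit χ hx, MulChar.map_nonunit χ h1, zero_mul]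

end Pool.Agent.Lib.MP_42948a_nt.BU2
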