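import Pool.Agent.Lib.MP_42948a_nt.BU.CB
import Pool.Agent.Lib.MP_42948a_nt.BU2.B1
import Pool.Agent.Lib.MP_42948a_nt.BU2.B2

/-!
# Complete sums to the modulus `p ^ 2` (job B3)

If `p ∣ Dl β j` use `CS_trivial` (`BU/CB.lean`). Otherwise `β i ≢ β j mod p` for all `i ≠ j` (as in `BU.CS_prime`). Let `F x` be the summand of `CS χ β`, `π = castHom : ZMod (p ^ 2) → ZMod p`, `b i = (β i : ZMod p) = π (β i)`, `ψ` from `psq_shift`,
`R u = ∑ (u + b (inl i))⁻¹ - ∑ (u + b (inr i))⁻¹`. For `t : ℕ`: `F (x + p t) = F x * ψ (t * R (π x))` (`psq_shift` for each factor with `x + β i` in place of `x`; `conj (ψ s) = ψ (-s)`: `AddChar.map_neg_eq_conj`; `ψ (∑ ..) = ∏ ψ ..`: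
`AddChar.map_sum_eq_prod`; `ψ (a) ^..`). Translation by `p t` is a bijection of `ZMod (p ^ 2)`, so `CS = ∑_x F x ψ(t R (π x))` for every `t < p`; sum over `t ∈ range p`:
`p * CS = ∑_x F x ∑_{t < p} ψ (t R(π x))`, and the inner sum is `p` if `R (π x) = 0` and `0` otherwise (`∑_{t < p} ψ (t a) = ∑_{s : ZMod p} ψ (s a) = 0` for `a ≠ 0`, `ψ ≠ 1`: `AddChar.sum_mulShift` or `AddChar.sum_eq_zero_of_ne_one`; `range p` and
`ZMod p`: `Fin.sum_univ_eq_sum_range`, `ZMod.natCast_zmod_val`). `‖F x‖ ≤ 1` and `F x = 0` if some `x + β i` is not a unit, i.e. `π x + b i = 0`. So `‖CS‖ ≤ #{x : (∀ i, π x + b i ≠ 0) ∧ R (π x) = 0}` and every `u : ZMod p` has at most `p`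
preimages under `π` (`x.val ≡ u.val mod p`: `x ↦ x.val / p` is injective on the fibre with values `< p`), so this is `≤ p * (2 r)` by `root_count`.
-/

namespace Pool.Agent.Lib.MP_42948a_nt.BU2

open Finset Pool.Agent.Lib.MP_42948a_nt.BU

private theorem B3_sum {ι A : Type*} [AddCommMonoid A] (ψ : AddChar A ℂ) (s : Finset ι) (f : ι → A) :
    ψ (∑ i ∈ s, f i) = ∏ i ∈ s, ψ (f i) := by
  classical
  induction s using Finset.induction_on with
  | empty => simp
  | insert a s ha ih => rw [Finset.sum_insert ha, Finset.prod_insert ha, AddChar.map_add_eq_mul, ih]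

private theorem B3_nonunit (p : ℕ) [Fact p.Prime] [NeZero (p ^ 2)] (χ : DirichletCharacter ℂ (p ^ 2))
    (x : ZMod (p ^ 2)) (h : ZMod.castHom (dvd_pow_self p two_ne_zero) (ZMod p) x = 0) : χ x = 0 := by
  refine MulChar.map_nonunit χ fun hu => ?_
  have h1 := hu.map (ZMod.castHom (dvd_pow_self p two_ne_zero) (ZMod p))
  rw [h] at h1
  exact not_isUnit_zero h1

private theorem B3_fibre (p : ℕ) [Fact p.Prime] [NeZero (p ^ 2)] (S : Finset (ZMod (p ^ 2))) (u : ZMod p) :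
    (S.filter (fun x => ZMod.castHom (dvd_pow_self p two_ne_zero) (ZMod p) x = u)).card ≤ p := by
  have hp : p.Prime := Fact.out
  have hval : ∀ x : ZMod (p ^ 2), ZMod.castHom (dvd_pow_self p two_ne_zero) (ZMod p) x =
      ((x.val : ℕ) : ZMod p) := by
    intro x
    rw [ZMod.castHom_apply, ZMod.natCast_val]
  calc _ ≤ (range p).card := by
        refine Finset.card_le_card_of_injOn (fun x => x.val / p) ?_ ?_
        · intro x _
          rw [Finset.mem_coe, Finset.mem_range]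
          show x.val / p < p
          rw [Nat.div_lt_iff_lt_mul hp.pos, ← pow_two]
          exact ZMod.val_lt x
        · intro x hx y hy hxy
          rw [Finset.mem_coe, Finset.mem_filter] at hx hy
          have h1 : ((x.val : ℕ) : ZMod p) = ((y.val : ℕ) : ZMod p) := by
            rw [← hval, ← hval, hx.2, hy.2]
          rw [ZMod.natCast_eq_natCast_iff'] at h1
          have h2 : x.val / p = y.val / p := hxy
          apply ZMod.val_injective
          rw [← Nat.div_add_mod x.val p, ← Nat.div_add_mod y.val p, h1, h2]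
    _ = p := Finset.card_range p

private theorem B3_shift {r : ℕ} (β : Fin r ⊕ Fin r → ℤ) (p : ℕ) [Fact p.Prime] [NeZero (p ^ 2)]
    (χ : DirichletCharacter ℂ (p ^ 2)) (ψ : AddChar (ZMod p) ℂ)
    (hψ : ∀ (x : ZMod (p ^ 2)) (t : ℕ), χ (x + ((p * t : ℕ) : ZMod (p ^ 2))) =
        χ x * ψ ((t : ZMod p) * (ZMod.castHom (dvd_pow_self p two_ne_zero) (ZMod p) x)⁻¹))
    (x : ZMod (p ^ 2)) (t : ℕ) :
    (∏ i : Fin r, χ (x + ((p * t : ℕ) : ZMod (p ^ 2)) + (β (Sum.inl i) : ZMod (p ^ 2)))) *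
    ∏ i : Fin r, (starRingEnd ℂ) (χ (x + ((p * t : ℕ) : ZMod (p ^ 2)) + (β (Sum.inr i) : ZMod (p ^ 2)))) =
    ((∏ i : Fin r, χ (x + (β (Sum.inl i) : ZMod (p ^ 2)))) *
    ∏ i : Fin r, (starRingEnd ℂ) (χ (x + (β (Sum.inr i) : ZMod (p ^ 2))))) *
    ψ ((t : ZMod p) * (∑ i : Fin r, (ZMod.castHom (dvd_pow_self p two_ne_zero) (ZMod p) x +
      (β (Sum.inl i) : ZMod p))⁻¹ - ∑ i : Fin r, (ZMod.castHom (dvd_pow_self p two_ne_zero) (ZMod p) x +
      (β (Sum.inr i) : ZMod p))⁻¹)) := by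
  have h1 : ∀ m : ℤ, χ (x + ((p * t : ℕ) : ZMod (p ^ 2)) + (m : ZMod (p ^ 2))) =
      χ (x + (m : ZMod (p ^ 2))) * ψ ((t : ZMod p) *
        (ZMod.castHom (dvd_pow_self p two_ne_zero) (ZMod p) x + (m : ZMod p))⁻¹) := by
    intro m
    rw [add_right_comm, hψ, map_add (ZMod.castHom (dvd_pow_self p two_ne_zero) (ZMod p)) x
      ((m : ℤ) : ZMod (p ^ 2)), map_intCast]
  have h2 : ∀ m : ℤ, (starRingEnd ℂ) (χ (x + ((p * t : ℕ) : ZMod (p ^ 2)) + (m : ZMod (p ^ 2)))) =
      (starRingEnd ℂ) (χ (x + (m : ZMod (p ^ 2)))) * ψ (-((t : ZMod p) *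
        (ZMod.castHom (dvd_pow_self p two_ne_zero) (ZMod p) x + (m : ZMod p))⁻¹)) := by
    intro m
    rw [h1, map_mul, AddChar.map_neg_eq_conj]
  have h3 : (t : ZMod p) * (∑ i : Fin r, (ZMod.castHom (dvd_pow_self p two_ne_zero) (ZMod p) x +
      (β (Sum.inl i) : ZMod p))⁻¹ - ∑ i : Fin r, (ZMod.castHom (dvd_pow_self p two_ne_zero) (ZMod p) x +
      (β (Sum.inr i) : ZMod p))⁻¹) =
      (∑ i : Fin r, (t : ZMod p) * (ZMod.castHom (dvd_pow_self p two_ne_zero) (ZMod p) x +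
      (β (Sum.inl i) : ZMod p))⁻¹) + ∑ i : Fin r, -((t : ZMod p) *
      (ZMod.castHom (dvd_pow_self p two_ne_zero) (ZMod p) x + (β (Sum.inr i) : ZMod p))⁻¹) := by
    rw [mul_sub, Finset.mul_sum, Finset.mul_sum, Finset.sum_neg_distrib, sub_eq_add_neg]
  rw [h3, AddChar.map_add_eq_mul, B3_sum, B3_sum]
  rw [Finset.prod_congr rfl fun i _ => h1 (β (Sum.inl i)),
    Finset.prod_congr rfl fun i _ => h2 (β (Sum.inr i)), Finset.prod_mul_distrib,
    Finset.prod_mul_distrib]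
  ring

theorem CS_psq {r : ℕ} (β : Fin r ⊕ Fin r → ℤ) (j : Fin r ⊕ Fin r) (p : ℕ) [Fact p.Prime] [NeZero (p ^ 2)]
    (χ : DirichletCharacter ℂ (p ^ 2)) (hNT : NT χ p) :
    ‖CS χ β‖ ≤ if (p : ℤ) ∣ Dl β j then ((p ^ 2 : ℕ) : ℝ) else (2 * r) * (p : ℝ) := by
  classical
  have hp : p.Prime := Fact.out
  split_ifs with hd
  · exact CS_trivial χ β
  · obtain ⟨ψ, hψ1, hψ⟩ := psq_shift p χ hNT
    have hb : ∀ i, i ≠ j → ((β i : ZMod p)) ≠ (β j : ZMod p) := by
      intro i hij heq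
      apply hd
      have h1 : (p : ℤ) ∣ β i - β j := (ZMod.intCast_eq_intCast_iff_dvd_sub (β j) (β i) p).mp heq.symm
      exact h1.trans (Finset.dvd_prod_of_mem (fun i => β i - β j) (Finset.mem_erase.mpr ⟨hij, Finset.mem_univ i⟩))
    obtain ⟨π, hπ⟩ : ∃ π : ZMod (p ^ 2) →+* ZMod p,
      π = ZMod.castHom (dvd_pow_self p two_ne_zero) (ZMod p) := ⟨_, rfl⟩
    obtain ⟨F, hF⟩ : ∃ F : ZMod (p ^ 2) → ℂ, F = fun x =>
      (∏ i : Fin r, χ (x + (β (Sum.inl i) : ZMod (p ^ 2)))) *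
        ∏ i : Fin r, (starRingEnd ℂ) (χ (x + (β (Sum.inr i) : ZMod (p ^ 2)))) := ⟨_, rfl⟩
    obtain ⟨R, hR⟩ : ∃ R : ZMod p → ZMod p, R = fun u =>
      ∑ i : Fin r, (u + (β (Sum.inl i) : ZMod p))⁻¹ - ∑ i : Fin r, (u + (β (Sum.inr i) : ZMod p))⁻¹ :=
      ⟨_, rfl⟩
    have hCS : CS χ β = ∑ x, F x := by
      rw [hF]
      rfl
    have hshift : ∀ (x : ZMod (p ^ 2)) (t : ℕ), F (x + ((p * t : ℕ) : ZMod (p ^ 2))) =
        F x * ψ ((t : ZMod p) * R (π x)) := by
      intro x t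
      rw [hF, hR, hπ]
      exact B3_shift β p χ ψ hψ x t
    have hCSt : ∀ s : ZMod p, CS χ β = ∑ x, F x * ψ (s * R (π x)) := by
      intro s
      rw [hCS, ← Equiv.sum_comp (Equiv.addRight ((p * s.val : ℕ) : ZMod (p ^ 2)))]
      refine Finset.sum_congr rfl fun x _ => ?_
      show F (x + ((p * s.val : ℕ) : ZMod (p ^ 2))) = _
      rw [hshift, ZMod.natCast_zmod_val]
    have hprim : ψ.IsPrimitive := AddChar.IsPrimitive.of_ne_one hψ1
    have hsum : (p : ℂ) * CS χ β = ∑ x, F x * (if R (π x) = 0 then (p : ℂ) else 0) := by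
      have h1 : ∑ s : ZMod p, CS χ β = (p : ℂ) * CS χ β := by
        rw [Finset.sum_const, Finset.card_univ, ZMod.card, nsmul_eq_mul]
      rw [← h1, Finset.sum_congr rfl fun s _ => hCSt s, Finset.sum_comm]
      refine Finset.sum_congr rfl fun x _ => ?_
      rw [← Finset.mul_sum, AddChar.sum_mulShift (R (π x)) hprim, ZMod.card]
      push_cast
      rfl
    have hF1 : ∀ x, ‖F x‖ ≤ 1 := by
      intro x
      rw [hF]
      show ‖(∏ i : Fin r, χ (x + (β (Sum.inl i) : ZMod (p ^ 2)))) *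
        ∏ i : Fin r, (starRingEnd ℂ) (χ (x + (β (Sum.inr i) : ZMod (p ^ 2))))‖ ≤ 1
      rw [norm_mul, norm_prod, norm_prod]
      refine mul_le_one₀ ?_ (Finset.prod_nonneg fun _ _ => norm_nonneg _) ?_
      · exact Finset.prod_le_one (fun _ _ => norm_nonneg _)
          (fun _ _ => DirichletCharacter.norm_le_one χ _)
      · refine Finset.prod_le_one (fun _ _ => norm_nonneg _) (fun _ _ => ?_)
        rw [RCLike.norm_conj]
        exact DirichletCharacter.norm_le_one χ _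
    have hF0 : ∀ x, (¬ ∀ i, π x + (β i : ZMod p) ≠ 0) → F x = 0 := by
      intro x hx
      rw [not_forall] at hx
      obtain ⟨i, hi⟩ := hx
      rw [not_not] at hi
      have h1 : χ (x + (β i : ZMod (p ^ 2))) = 0 := by
        refine B3_nonunit p χ _ ?_
        rw [map_add, map_intCast, ← hπ]
        exact hi
      rw [hF]
      show (∏ i : Fin r, χ (x + (β (Sum.inl i) : ZMod (p ^ 2)))) *
        ∏ i : Fin r, (starRingEnd ℂ) (χ (x + (β (Sum.inr i) : ZMod (p ^ 2)))) = 0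
      rcases i with i | i
      · rw [Finset.prod_eq_zero (Finset.mem_univ i) h1, zero_mul]
      · rw [Finset.prod_eq_zero (s := Finset.univ)
          (f := fun i => (starRingEnd ℂ) (χ (x + (β (Sum.inr i) : ZMod (p ^ 2)))))
          (Finset.mem_univ i) (by rw [h1, map_zero]), mul_zero]
    have hp0 : (0 : ℝ) < p := by exact_mod_cast hp.pos
    have hbound : (p : ℝ) * ‖CS χ β‖ ≤ (p : ℝ) *
        ((univ.filter (fun x : ZMod (p ^ 2) => (∀ i, π x + (β i : ZMod p) ≠ 0) ∧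
          R (π x) = 0)).card : ℝ) := by
      have h1 : (p : ℝ) * ‖CS χ β‖ = ‖(p : ℂ) * CS χ β‖ := by
        rw [norm_mul, Complex.norm_natCast]
      rw [h1, hsum]
      refine (norm_sum_le _ _).trans ?_
      have h2 : ∀ x ∈ (Finset.univ : Finset (ZMod (p ^ 2))),
          ‖F x * (if R (π x) = 0 then (p : ℂ) else 0)‖ ≤
          if (∀ i, π x + (β i : ZMod p) ≠ 0) ∧ R (π x) = 0 then (p : ℝ) else 0 := by
        intro x _
        by_cases g1 : ∀ i, π x + (β i : ZMod p) ≠ 0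
        · by_cases g2 : R (π x) = 0
          · rw [if_pos g2, if_pos ⟨g1, g2⟩, norm_mul, Complex.norm_natCast]
            have := hF1 x
            nlinarith
          · rw [if_neg g2, mul_zero, norm_zero]
            split_ifs
            · exact hp0.le
            · exact le_rfl
        · rw [hF0 x g1, zero_mul, norm_zero]
          split_ifs
          · exact hp0.le
          · exact le_rfl
      refine (Finset.sum_le_sum h2).trans (le_of_eq ?_)
      rw [← Finset.sum_filter, Finset.sum_const, nsmul_eq_mul, mul_comm]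
    have hcard : (univ.filter (fun x : ZMod (p ^ 2) => (∀ i, π x + (β i : ZMod p) ≠ 0) ∧
          R (π x) = 0)).card ≤ p * (2 * r) := by
      have h1 : (univ.filter (fun x : ZMod (p ^ 2) => (∀ i, π x + (β i : ZMod p) ≠ 0) ∧
          R (π x) = 0)).card ≤ p * (univ.filter (fun u : ZMod p => (∀ i, u + (β i : ZMod p) ≠ 0) ∧
          R u = 0)).card := by
        refine Finset.card_le_mul_card_image_of_maps_to (f := π) ?_ p ?_
        · intro x hx
          rw [Finset.mem_filter] at hx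
          rw [Finset.mem_filter]
          exact ⟨Finset.mem_univ _, hx.2⟩
        · intro u _
          rw [hπ]
          exact B3_fibre p _ u
      refine h1.trans (Nat.mul_le_mul_left p ?_)
      have h2 := root_count (r := r) p (fun i => (β i : ZMod p)) j hb
      rw [hR]
      exact h2
    have hcard' : ((univ.filter (fun x : ZMod (p ^ 2) => (∀ i, π x + (β i : ZMod p) ≠ 0) ∧
          R (π x) = 0)).card : ℝ) ≤ p * (2 * r) := by exact_mod_cast hcard
    have h3 := le_of_mul_le_mul_left hbound hp0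
    calc ‖CS χ β‖ ≤ _ := h3
      _ ≤ (p : ℝ) * (2 * r) := hcard'
      _ = 2 * r * (p : ℝ) := by ring

end Pool.Agent.Lib.MP_42948a_nt.BU2
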