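import Pool.Agent.Lib.MP_42948a_nt.BU.CA
import Pool.Agent.Lib.MP_42948a_nt.BU2.A
import Pool.Agent.Lib.MP_42948a_nt.BU2.B3

/-!
# Complete sums to cube-free moduli (job C)

As `CS_sqfree` in `BU/CC.lean` (copy and adapt; strong induction on `q`, `CC_sqfree_aux`). `q = 1`: `CS_trivial`. `q > 1`: `p = q.minFac`, `v = q.factorization p ∈ {1, 2}` (`p ^ 3 ∤ q`: `Nat.Prime.pow_dvd_iff_le_factorization`),
`q = p ^ v * q'` with `q'` coprime to `p` (`Nat.ordProj_mul_ordCompl_eq_self`, `Nat.coprime_ordCompl`), `subst` after generalizing; `crt_char (p ^ v) q'`, `CS_mul`; the factor of `p ^ v`: `v = 1`: `CS_prime'` (`p ^ 1 = p`: `subst`/`pow_one` is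
awkward for the type `ZMod (p ^ 1)`: treat the two cases with `q = p * q'` and `q = p ^ 2 * q'` separately); `v = 2`: `CS_psq` and `√(p ^ 2) = p`. The induction hypothesis for `q'` (cube-free as a divisor of `q`).
`lb`: `q.primeFactors = insert p q'.primeFactors`, `q.factorization p = v`, `q.factorization l = q'.factorization l` for the primes `l ∣ q'` (`Nat.factorization_mul_of_coprime`, `Nat.Prime.factorization_pow`), all factors are `≥ 0`.
-/

namespace Pool.Agent.Lib.MP_42948a_nt.BU2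

open Finset Pool.Agent.Lib.MP_42948a_nt.BU

private theorem C_lb (C : ℝ) (D : ℤ) {p v P q' : ℕ} (hp : p.Prime) (hv : v ≠ 0) (hP : P = p ^ v) (hq' : q' ≠ 0)
    (hcop : ¬ p ∣ q') :
    lb C (P * q') D = (if (p : ℤ) ∣ D then (P : ℝ) else C * √(P : ℝ)) * lb C q' D := by
  subst hP
  have hpv : p ^ v ≠ 0 := pow_ne_zero _ hp.ne_zero
  have hc : (p ^ v).Coprime q' := Nat.Coprime.pow_left v ((Nat.Prime.coprime_iff_not_dvd hp).mpr hcop)
  have hfac : (p ^ v * q').primeFactors = insert p q'.primeFactors := by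
    rw [hc.primeFactors_mul, Nat.primeFactors_prime_pow hv hp, Finset.insert_eq]
  have hnot : p ∉ q'.primeFactors := fun hmem => hcop (Nat.dvd_of_mem_primeFactors hmem)
  have h1 : (p ^ v * q').factorization p = v := by
    rw [Nat.factorization_mul hpv hq', Finsupp.add_apply, Nat.factorization_eq_zero_of_not_dvd hcop,
      hp.factorization_pow, Finsupp.single_eq_same, Nat.add_zero]
  have h2 : ∀ l ∈ q'.primeFactors, (p ^ v * q').factorization l = q'.factorization l := by
    intro l hl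
    have hne : l ≠ p := fun h => hnot (h ▸ hl)
    rw [Nat.factorization_mul hpv hq', Finsupp.add_apply, hp.factorization_pow,
      Finsupp.single_eq_of_ne hne, zero_add]
  unfold lb
  rw [hfac, Finset.prod_insert hnot, h1]
  congr 1
  refine Finset.prod_congr rfl fun l hl => ?_
  rw [h2 l hl]

private theorem C_aux {r : ℕ} (hr : 1 ≤ r) (β : Fin r ⊕ Fin r → ℤ) (j : Fin r ⊕ Fin r) :
    ∀ (q : ℕ) (hq0 : NeZero q), (∀ p : ℕ, p.Prime → ¬ p ^ 3 ∣ q) → ∀ χ : DirichletCharacter ℂ q,
    (∀ p : ℕ, p.Prime → p ∣ q → NT χ p) → ‖CS χ β‖ ≤ lb (2 * r) q (Dl β j) := by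
  intro q
  induction q using Nat.strong_induction_on with
  | _ q ih =>
    intro hq0 hq χ hNT
    by_cases h1 : q = 1
    · subst h1
      have h := CS_trivial χ β
      unfold lb
      simpa using h
    · obtain ⟨p, hp, hpq⟩ : ∃ p : ℕ, p.Prime ∧ p ∣ q := ⟨q.minFac, Nat.minFac_prime h1, Nat.minFac_dvd q⟩
      have : NeZero p := ⟨hp.ne_zero⟩
      have : Fact p.Prime := ⟨hp⟩
      by_cases h2 : p ^ 2 ∣ q
      · obtain ⟨q', rfl⟩ := h2
        have hq'0 : q' ≠ 0 := by
          rintro rfl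
          exact hq0.out (by simp)
        have : NeZero q' := ⟨hq'0⟩
        have : NeZero (p ^ 2) := ⟨pow_ne_zero _ hp.ne_zero⟩
        have hnd : ¬ p ∣ q' := by
          intro h
          apply hq p hp
          rw [pow_succ]
          exact Nat.mul_dvd_mul_left _ h
        have hcop : (p ^ 2).Coprime q' := Nat.Coprime.pow_left 2 ((Nat.Prime.coprime_iff_not_dvd hp).mpr hnd)
        have hlt : q' < p ^ 2 * q' := by
          have h2 := hp.two_le
          have h3 : 2 ≤ p ^ 2 := by nlinarith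
          have : 0 < q' := Nat.pos_of_ne_zero hq'0
          nlinarith
        obtain ⟨χp, χ', hmul, -, hNTp, hNT'⟩ := crt_char (p ^ 2) q' hcop χ
        have hCS : CS χ β = CS χp β * CS χ' β := CS_mul (p ^ 2) q' hcop χ χp χ' hmul β
        have hA := CS_psq β j p χp (hNTp p hp (dvd_pow_self p two_ne_zero) (hNT p hp hpq))
        have hB := ih q' hlt ‹NeZero q'› (fun l hl hd => hq l hl (hd.mul_left _)) χ'
          (fun l hl hlq => hNT' l hl hlq (hNT l hl (hlq.mul_left _)))
        rw [C_lb (2 * r) (Dl β j) hp two_ne_zero rfl hq'0 hnd, hCS, norm_mul]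
        have h5 : √((p ^ 2 : ℕ) : ℝ) = (p : ℝ) := by
          rw [Nat.cast_pow, Real.sqrt_sq (Nat.cast_nonneg p)]
        rw [h5]
        refine mul_le_mul hA hB (norm_nonneg _) ?_
        split_ifs <;> positivity
      · obtain ⟨q', rfl⟩ := hpq
        have hq'0 : q' ≠ 0 := by
          rintro rfl
          exact hq0.out (by simp)
        have : NeZero q' := ⟨hq'0⟩
        have hnd : ¬ p ∣ q' := by
          intro h
          apply h2
          rw [pow_two]
          exact Nat.mul_dvd_mul_left _ h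
        have hcop : p.Coprime q' := (Nat.Prime.coprime_iff_not_dvd hp).mpr hnd
        have hlt : q' < p * q' := by
          have h2 := hp.two_le
          have : 0 < q' := Nat.pos_of_ne_zero hq'0
          nlinarith
        obtain ⟨χp, χ', hmul, -, hNTp, hNT'⟩ := crt_char p q' hcop χ
        have hCS : CS χ β = CS χp β * CS χ' β := CS_mul p q' hcop χ χp χ' hmul β
        have hA := CS_prime' hr β j p χp (hNTp p hp dvd_rfl (hNT p hp (dvd_mul_right p q')))
        have hB := ih q' hlt ‹NeZero q'› (fun l hl hd => hq l hl (hd.mul_left _)) χ'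
          (fun l hl hlq => hNT' l hl hlq (hNT l hl (hlq.mul_left _)))
        rw [C_lb (2 * r) (Dl β j) hp one_ne_zero (pow_one p).symm hq'0 hnd, hCS, norm_mul]
        refine mul_le_mul hA hB (norm_nonneg _) ?_
        split_ifs <;> positivity

theorem CS_cubefree {r : ℕ} (hr : 1 ≤ r) (β : Fin r ⊕ Fin r → ℤ) (j : Fin r ⊕ Fin r) (q : ℕ) [NeZero q]
    (hq : ∀ p : ℕ, p.Prime → ¬ p ^ 3 ∣ q) (χ : DirichletCharacter ℂ q) (hNT : ∀ p : ℕ, p.Prime → p ∣ q → NT χ p) :
    ‖CS χ β‖ ≤ lb (2 * r) q (Dl β j) :=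
  C_aux hr β j q inferInstance hq χ hNT

end Pool.Agent.Lib.MP_42948a_nt.BU2
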