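import Pool.Agent.Lib.MP_42948a_nt.BU2.E

/-!
# Sums of the weights (job F)

`wt_sum`: `wt q t ≤ ∏_{p ∣ q} (1 + [p ∣ t] √(p ^ v)) = ∑_{S ⊆ primeFactors} ∏_{p ∈ S} [p ∣ t] √(p ^ v)` (`Finset.prod_one_add` / `prod_add`), and the product over `S` is `∏_{p ∈ S} √(p ^ v)` if `∏_{p ∈ S} p ∣ t` (distinct primes), `0` otherwise.
`#{t ≤ B : g ∣ t} = B / g ≤ B/g` for `g = ∏_{p ∈ S} p` (`SA_card` in `BU/SA.lean` for the pattern), and `√(p ^ v) ≤ p` (`v ≤ 2`, `q` is cube-free), so the sum over `t` is `≤ ∑_S B/g * g = B * 2 ^ ω(q) ≤ B τ(q)` (`HE_two_pow` in `BU/HE.lean`; copy it).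
`wt_shift`: copy `gcd_sqrt_shift` of `BU/SA.lean` with `wt q t` in place of `√gcd(q, t)`: `wt q (u - v) = wt q (|u - v|)` (`wt_neg`, `Int.natAbs`).
-/

namespace Pool.Agent.Lib.MP_42948a_nt.BU2

open Finset Pool.Agent.Lib.MP_42948a_nt.BU

private theorem F_card (g B : ℕ) :
    ((((Icc 1 B).filter (fun t => g ∣ t)).card : ℕ) : ℝ) * (g : ℝ) ≤ B := by
  have h1 : ((Icc 1 B).filter (fun t => g ∣ t)).card = B / g := by
    have e : (Icc 1 B).filter (fun t => g ∣ t) = (Ioc 0 B).filter (fun t => g ∣ t) := by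
      ext t
      simp only [mem_filter, mem_Icc, mem_Ioc]
      constructor
      · rintro ⟨⟨h1, h2⟩, h3⟩
        exact ⟨⟨by omega, h2⟩, h3⟩
      · rintro ⟨⟨h1, h2⟩, h3⟩
        exact ⟨⟨by omega, h2⟩, h3⟩
    rw [e, Nat.Ioc_filter_dvd_card_eq_div]
  rw [h1]
  exact_mod_cast Nat.div_mul_le_self B g

private theorem F_two_pow (n : ℕ) (hn : n ≠ 0) : 2 ^ n.primeFactors.card ≤ n.divisors.card := by
  rw [Nat.card_divisors hn]
  refine Finset.pow_card_le_prod _ _ _ fun p hp => ?_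
  have h3 : n.factorization p ≠ 0 := by
    rw [← Nat.support_factorization] at hp
    exact Finsupp.mem_support_iff.1 hp
  omega

private theorem F_sqrt (q : ℕ) (hq3 : ∀ p : ℕ, p.Prime → ¬ p ^ 3 ∣ q) (p : ℕ)
    (hp : p.Prime) : √((p ^ q.factorization p : ℕ) : ℝ) ≤ p := by
  have h1 : q.factorization p ≤ 2 := by
    by_contra hcon
    have h2 : 3 ≤ q.factorization p := by omega
    exact hq3 p hp ((pow_dvd_pow p h2).trans (Nat.ordProj_dvd q p))
  have h3 : p ^ q.factorization p ≤ p ^ 2 := Nat.pow_le_pow_right hp.pos h1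
  rw [Real.sqrt_le_left (Nat.cast_nonneg _)]
  exact_mod_cast h3

private theorem F_term (q : ℕ) (hq3 : ∀ p : ℕ, p.Prime → ¬ p ^ 3 ∣ q) (t : ℕ) :
    wt q ((t : ℕ) : ℤ) ≤ ∑ S ∈ q.primeFactors.powerset,
      (if (∏ p ∈ S, p) ∣ t then ((∏ p ∈ S, p : ℕ) : ℝ) else 0) := by
  unfold wt
  have h1 : ∏ p ∈ q.primeFactors,
      (if (p : ℤ) ∣ ((t : ℕ) : ℤ) then √((p ^ q.factorization p : ℕ) : ℝ) else 1) ≤
      ∏ p ∈ q.primeFactors, (1 + (if p ∣ t then (p : ℝ) else 0)) := by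
    refine Finset.prod_le_prod (fun p _ => ?_) (fun p hp => ?_)
    · split_ifs
      · exact Real.sqrt_nonneg _
      · exact zero_le_one
    · have hpp : p.Prime := Nat.prime_of_mem_primeFactors hp
      by_cases h : p ∣ t
      · have h' : (p : ℤ) ∣ ((t : ℕ) : ℤ) := Int.natCast_dvd_natCast.2 h
        rw [if_pos h, if_pos h']
        have := F_sqrt q hq3 p hpp
        linarith
      · have h' : ¬ (p : ℤ) ∣ ((t : ℕ) : ℤ) := fun h2 => h (Int.natCast_dvd_natCast.1 h2)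
        rw [if_neg h, if_neg h']
        linarith
  refine h1.trans ?_
  rw [Finset.prod_one_add]
  refine Finset.sum_le_sum fun S hS => ?_
  have hSp : ∀ p ∈ S, p.Prime := fun p hp =>
    Nat.prime_of_mem_primeFactors (Finset.mem_powerset.1 hS hp)
  by_cases hall : ∀ p ∈ S, p ∣ t
  · have hg : (∏ p ∈ S, p) ∣ t :=
      Finset.prod_primes_dvd t (fun p hp => (hSp p hp).prime) hall
    rw [if_pos hg, Nat.cast_prod]
    refine le_of_eq (Finset.prod_congr rfl fun p hp => ?_)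
    rw [if_pos (hall p hp)]
  · push Not at hall
    obtain ⟨p, hp, hpt⟩ := hall
    rw [Finset.prod_eq_zero hp (if_neg hpt)]
    split_ifs
    · exact Nat.cast_nonneg _
    · exact le_rfl

theorem wt_sum (q B : ℕ) (hq : 0 < q) (hq3 : ∀ p : ℕ, p.Prime → ¬ p ^ 3 ∣ q) :
    ∑ t ∈ Icc 1 B, wt q ((t : ℕ) : ℤ) ≤ B * (q.divisors.card : ℝ) := by
  classical
  calc ∑ t ∈ Icc 1 B, wt q ((t : ℕ) : ℤ)
      ≤ ∑ t ∈ Icc 1 B, ∑ S ∈ q.primeFactors.powerset,
          (if (∏ p ∈ S, p) ∣ t then ((∏ p ∈ S, p : ℕ) : ℝ) else 0) :=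
        sum_le_sum fun t _ => F_term q hq3 t
    _ = ∑ S ∈ q.primeFactors.powerset, ∑ t ∈ Icc 1 B,
          (if (∏ p ∈ S, p) ∣ t then ((∏ p ∈ S, p : ℕ) : ℝ) else 0) := sum_comm
    _ ≤ ∑ S ∈ q.primeFactors.powerset, (B : ℝ) := by
        refine sum_le_sum fun S _ => ?_
        rw [← sum_filter, sum_const, nsmul_eq_mul]
        exact F_card _ B
    _ = B * ((2 ^ q.primeFactors.card : ℕ) : ℝ) := by
        rw [sum_const, nsmul_eq_mul, mul_comm, card_powerset]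
    _ ≤ B * (q.divisors.card : ℝ) := by
        refine mul_le_mul_of_nonneg_left ?_ (Nat.cast_nonneg _)
        exact_mod_cast F_two_pow q hq.ne'

theorem wt_shift (q B v : ℕ) (hq : 0 < q) (hq3 : ∀ p : ℕ, p.Prime → ¬ p ^ 3 ∣ q) (hv : v ∈ Icc 1 B) :
    ∑ u ∈ (Icc 1 B).erase v, wt q ((u : ℤ) - (v : ℤ)) ≤ 2 * B * (q.divisors.card : ℝ) := by
  classical
  rw [mem_Icc] at hv
  have habs : ∀ D : ℤ, wt q D = wt q ((D.natAbs : ℕ) : ℤ) := by
    intro D
    rcases Int.natAbs_eq D with h | h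
    · rw [← h]
    · have h2 : ((D.natAbs : ℕ) : ℤ) = -D := by omega
      rw [h2, wt_neg]
  have key : ∀ (S : Finset ℕ), (∀ u ∈ S, u ∈ Icc 1 B ∧ u ≠ v) →
      (∀ u ∈ S, ∀ u' ∈ S, ((u : ℤ) - (v : ℤ)).natAbs = ((u' : ℤ) - (v : ℤ)).natAbs → u = u') →
      ∑ u ∈ S, wt q ((u : ℤ) - (v : ℤ)) ≤ B * (q.divisors.card : ℝ) := by
    intro S h1 h2
    refine le_trans ?_ (wt_sum q B hq hq3)
    have hcongr : ∑ u ∈ S, wt q ((u : ℤ) - (v : ℤ)) =
        ∑ u ∈ S, wt q (((((u : ℤ) - (v : ℤ)).natAbs : ℕ)) : ℤ) :=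
      Finset.sum_congr rfl fun u _ => habs _
    rw [hcongr]
    have e := Finset.sum_image (s := S) (g := fun u : ℕ => ((u : ℤ) - (v : ℤ)).natAbs)
      (f := fun t : ℕ => wt q ((t : ℕ) : ℤ)) (fun u hu u' hu' h => h2 u hu u' hu' h)
    rw [← e]
    refine Finset.sum_le_sum_of_subset_of_nonneg ?_ (fun _ _ _ => wt_nonneg _ _)
    intro t ht
    obtain ⟨u, hu, rfl⟩ := mem_image.1 ht
    obtain ⟨h3, h4⟩ := h1 u hu
    rw [mem_Icc] at h3 ⊢
    omega
  have hs := Finset.sum_filter_add_sum_filter_not ((Icc 1 B).erase v) (fun u => v < u)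
    (fun u => wt q ((u : ℤ) - (v : ℤ)))
  rw [← hs]
  have a1 := key (((Icc 1 B).erase v).filter (fun u => v < u)) (by
    intro u hu
    rw [mem_filter, mem_erase] at hu
    exact ⟨hu.1.2, hu.1.1⟩) (by
    intro u hu u' hu' h
    rw [mem_filter] at hu hu'
    have := hu.2
    have := hu'.2
    omega)
  have a2 := key (((Icc 1 B).erase v).filter (fun u => ¬ v < u)) (by
    intro u hu
    rw [mem_filter, mem_erase] at hu
    exact ⟨hu.1.2, hu.1.1⟩) (by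
    intro u hu u' hu' h
    rw [mem_filter] at hu hu'
    have := hu.2
    have := hu'.2
    omega)
  linarith

end Pool.Agent.Lib.MP_42948a_nt.BU2
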